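import Pool.Agent.T2h96.FC.Stm2
import Pool.Agent.T2h96.FC.T_SD

/-!
The almost periodic bispecial words are counted by the maximal runs.
-/

set_option autoImplicit false

open Filter Pool.Agent.T2h96.FC

namespace Pool.Agent.T2h38.FC

/-! ### functions with the same sums up to bounded errors -/

/-- the partial sums differ by a bounded amount -/
def Eqv (F G : ℕ → ℤ) : Prop := ∃ R : ℤ, ∀ n, |∑ l ∈ Finset.range n, (F l - G l)| ≤ R

theorem Eqv.refl (F : ℕ → ℤ) : Eqv F F := ⟨0, fun n => by simp⟩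

theorem Eqv.symm {F G : ℕ → ℤ} (h : Eqv F G) : Eqv G F := by
  obtain ⟨R, hR⟩ := h
  refine ⟨R, fun n => ?_⟩
  have h1 : ∑ l ∈ Finset.range n, (G l - F l) = -∑ l ∈ Finset.range n, (F l - G l) := by
    rw [← Finset.sum_neg_distrib]
    exact Finset.sum_congr rfl fun _ _ => by ring
  rw [h1, abs_neg]
  exact hR n

theorem Eqv.trans {F G H : ℕ → ℤ} (h : Eqv F G) (h' : Eqv G H) : Eqv F H := by
  obtain ⟨R, hR⟩ := h
  obtain ⟨R', hR'⟩ := h'
  refine ⟨R + R', fun n => ?_⟩
  have h1 : ∑ l ∈ Finset.range n, (F l - H l) =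
      ∑ l ∈ Finset.range n, (F l - G l) + ∑ l ∈ Finset.range n, (G l - H l) := by
    rw [← Finset.sum_add_distrib]
    exact Finset.sum_congr rfl fun _ _ => by ring
  rw [h1]
  exact (abs_add_le _ _).trans (add_le_add (hR n) (hR' n))

theorem Eqv.add {F G F' G' : ℕ → ℤ} (h : Eqv F G) (h' : Eqv F' G') :
    Eqv (fun l => F l + F' l) (fun l => G l + G' l) := by
  obtain ⟨R, hR⟩ := h
  obtain ⟨R', hR'⟩ := h'
  refine ⟨R + R', fun n => ?_⟩
  have h1 : ∑ l ∈ Finset.range n, (F l + F' l - (G l + G' l)) =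
      ∑ l ∈ Finset.range n, (F l - G l) + ∑ l ∈ Finset.range n, (F' l - G' l) := by
    rw [← Finset.sum_add_distrib]
    exact Finset.sum_congr rfl fun _ _ => by ring
  rw [h1]
  exact (abs_add_le _ _).trans (add_le_add (hR n) (hR' n))

theorem Eqv.neg {F G : ℕ → ℤ} (h : Eqv F G) : Eqv (fun l => -F l) (fun l => -G l) := by
  obtain ⟨R, hR⟩ := h.symm
  refine ⟨R, fun n => ?_⟩
  have h1 : ∑ l ∈ Finset.range n, (-F l - -G l) = ∑ l ∈ Finset.range n, (G l - F l) :=
    Finset.sum_congr rfl fun _ _ => by ring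
  rw [h1]
  exact hR n

theorem Eqv.sub {F G F' G' : ℕ → ℤ} (h : Eqv F G) (h' : Eqv F' G') :
    Eqv (fun l => F l - F' l) (fun l => G l - G' l) := by
  have := h.add h'.neg
  simpa only [sub_eq_add_neg] using this

theorem Eqv.sum {ι : Type} (s : Finset ι) {F G : ι → ℕ → ℤ} (h : ∀ i ∈ s, Eqv (F i) (G i)) :
    Eqv (fun l => ∑ i ∈ s, F i l) (fun l => ∑ i ∈ s, G i l) := by
  classical
  induction s using Finset.induction_on with
  | empty =>
    simp only [Finset.sum_empty]
    exact Eqv.refl _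
  | insert a s ha ih =>
    simp only [Finset.sum_insert ha]
    exact (h a (Finset.mem_insert_self _ _)).add
      (ih fun i hi => h i (Finset.mem_insert_of_mem hi))

theorem Eqv.of_eventually {F G : ℕ → ℤ} (l0 : ℕ) (h : ∀ l, l0 ≤ l → F l = G l) : Eqv F G := by
  refine ⟨∑ l ∈ Finset.range l0, |F l - G l|, fun n => ?_⟩
  have h1 : ∑ l ∈ Finset.range n, (F l - G l) =
      ∑ l ∈ (Finset.range n).filter (· < l0), (F l - G l) := by
    rw [Finset.sum_filter_of_ne]
    intro l _ hl
    by_contra h2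
    exact hl (by rw [h l (by omega), sub_self])
  rw [h1]
  refine (Finset.abs_sum_le_sum_abs _ _).trans ?_
  refine Finset.sum_le_sum_of_subset_of_nonneg ?_ fun _ _ _ => abs_nonneg _
  intro l hl
  rw [Finset.mem_filter] at hl
  exact Finset.mem_range.2 hl.2

theorem Eqv.shift {F : ℕ → ℤ} {M : ℤ} (hM : ∀ l, |F l| ≤ M) (k : ℕ) :
    Eqv (fun l => F (l + k)) F := by
  induction k with
  | zero => exact Eqv.refl _
  | succ k ih =>
    refine Eqv.trans ?_ ih
    refine ⟨M + M, fun n => ?_⟩
    have h1 : ∑ l ∈ Finset.range n, (F (l + (k + 1)) - F (l + k)) = F (n + k) - F k := by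
      have h2 := Finset.sum_range_sub (fun l => F (l + k)) n
      simp only [zero_add] at h2
      rw [← h2]
      refine Finset.sum_congr rfl fun l _ => ?_
      congr 2
      ring
    rw [h1]
    exact (abs_sub _ _).trans (add_le_add (hM _) (hM _))

/-! ### words with inner periods -/

section

variable {C : Type} [Fintype C] (T : ℤ → C) (q : ℕ)

omit [Fintype C] in
theorem perOn_congr {T : ℤ → C} {q : ℕ} {i j : ℤ} {l : ℕ} (h : wd T l i = wd T l j) {x y : ℤ} (hx : 0 ≤ x)
    (hy : y ≤ l) : PerOn T q (i + x) (i + y) ↔ PerOn T q (j + x) (j + y) := by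
  rw [wd_eq_iff] at h
  have key : ∀ i j : ℤ, (∀ t : ℕ, t < l → T (i + t) = T (j + t)) → PerOn T q (i + x) (i + y) →
      PerOn T q (j + x) (j + y) := by
    intro i j h hp t h1 h2
    have h3 := hp (t - j + i) (by linarith) (by linarith)
    have h4 := h (t - j).toNat (by omega)
    have h5 := h (t - j + q).toNat (by omega)
    rw [Int.toNat_of_nonneg (by omega)] at h4 h5
    rw [show i + (t - j) = t - j + i by ring, show j + (t - j) = t by ring] at h4
    rw [show i + (t - j + q) = t - j + i + q by ring, show j + (t - j + q) = t + q by ring] at h5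
    rw [← h4, ← h5]
    exact h3
  exact ⟨key i j h, key j i fun t ht => (h t ht).symm⟩

/-- the number of words of length `l` with period `q` inside the margins `x`, `y` -/
noncomputable def ZZ (x y l : ℕ) : ℤ := ((wd T l '' {i : ℤ | PerOn T q (i + x) (i + l - y)}).ncard : ℤ)

/-- the positions where the maximal run has margins `a`, `b` -/
def ZS (a b l : ℕ) : Set ℤ :=
  {i : ℤ | PerOn T q (i + a) (i + l - b) ∧ (a = 0 ∨ T (i + a - 1 + q) ≠ T (i + a - 1)) ∧
    (b = 0 ∨ T (i + l - b) ≠ T (i + l - b - q))}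

/-- the number of words of length `l` such that the maximal run has margins `a`, `b` -/
noncomputable def ZP (a b l : ℕ) : ℤ := ((wd T l '' ZS T q a b l).ncard : ℤ)

omit [Fintype C] in
theorem ncard_image_le' {ι X Y : Type} [Finite Y] {S : Set ι} (f : ι → X) (g : ι → Y)
    (h : ∀ i ∈ S, ∀ j ∈ S, g i = g j → f i = f j) : (f '' S).ncard ≤ (g '' S).ncard := by
  classical
  by_cases hι : Nonempty ι
  · have h1 : ∀ a : X, a ∈ f '' S → ∃ i ∈ S, f i = a := fun a ha => ha
    choose! φ hφ1 hφ2 using h1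
    refine Set.ncard_le_ncard_of_injOn (fun a => g (φ a)) (fun a ha => ⟨φ a, hφ1 a ha, rfl⟩) ?_
      (Set.toFinite _)
    intro a ha b hb hab
    rw [← hφ2 a ha, ← hφ2 b hb]
    exact h _ (hφ1 a ha) _ (hφ1 b hb) hab
  · have : S = ∅ := by
      ext i
      exact (hι ⟨i⟩).elim
    rw [this]
    simp

omit [Fintype C] in
theorem ncard_image_eq' {ι X Y : Type} {S : Set ι} (f : ι → X) (g : ι → Y)
    (h : ∀ i ∈ S, ∀ j ∈ S, f i = f j ↔ g i = g j) : (f '' S).ncard = (g '' S).ncard := by
  rw [Set.image_eq_range, Set.image_eq_range]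
  exact ncard_range_congr (fun i : S => f i) (fun i : S => g i) fun i j => h i i.2 j j.2

omit [Fintype C] in
theorem ncard_image_prod' {ι X Y : Type} [Finite X] [Finite Y] (S : Set ι) (f : ι → X) (g : ι → Y) :
    ((fun i => (f i, g i)) '' S).ncard =
      ∑ w ∈ (Set.toFinite (f '' S)).toFinset, (g '' {i | i ∈ S ∧ f i = w}).ncard := by
  classical
  have h1 := ncard_range_prod (fun i : S => f i) (fun i : S => g i)
  rw [Set.image_eq_range, h1]
  refine Finset.sum_congr ?_ fun w _ => ?_
  · ext w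
    simp [Set.Finite.mem_toFinset]
  · congr 1
    ext y
    simp only [Set.mem_image, Set.mem_ofPred_eq, Subtype.exists]
    constructor
    · rintro ⟨i, hi, h2, h3⟩
      exact ⟨i, ⟨hi, h2⟩, h3⟩
    · rintro ⟨i, ⟨hi, h2⟩, h3⟩
      exact ⟨i, hi, h2, h3⟩

theorem ZP_bdd (hq : 0 < q) (a b : ℕ) : ∃ M : ℤ, ∀ l, |ZP T q a b l| ≤ M := by
  classical
  refine ⟨(Nat.card ((Fin (a + q) → C) × (Fin b → C)) : ℤ), fun l => ?_⟩
  unfold ZP
  rw [Nat.abs_cast]
  norm_cast
  refine (ncard_image_le' (S := ZS T q a b l) (wd T l)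
    (fun i => (wd T (a + q) i, wd T b (i + l - b))) ?_).trans ?_
  · -- the word is determined by its first and last letters
    intro i hi j hj h12
    rw [Prod.mk.injEq] at h12
    obtain ⟨h1, h2⟩ := h12
    rw [wd_eq_iff] at h1 h2 ⊢
    intro t
    induction t using Nat.strong_induction_on with
    | _ t ih =>
      intro ht
      rcases lt_or_ge t (a + q) with h3 | h3
      · exact h1 t h3
      rcases lt_or_ge ((t : ℤ)) (l - b) with h4 | h4
      · obtain ⟨s, rfl⟩ := Nat.exists_eq_add_of_le (show q ≤ t by omega)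
        have h5 := ih s (by omega) (by omega)
        have h6 := hi.1 (i + s) (by omega) (by push_cast at h4; omega)
        have h7 := hj.1 (j + s) (by omega) (by push_cast at h4; omega)
        push_cast
        rw [show i + ((q : ℤ) + s) = i + s + q by ring, show j + ((q : ℤ) + s) = j + s + q by ring,
          h6, h7, h5]
      · have h5 := h2 ((t : ℤ) - (l - b)).toNat (by omega)
        rw [Int.toNat_of_nonneg (by omega)] at h5
        rw [show i + l - b + (t - (l - b)) = i + (t : ℤ) by ring,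
          show j + l - b + (t - (l - b)) = j + (t : ℤ) by ring] at h5
        exact h5
  · exact Set.ncard_le_card _

omit [Fintype C] in
/-- the margins of the maximal run are determined by the word -/
theorem ZS_le {a b a' b' x y l : ℕ} (hl : x + y + q ≤ l) (hb : b ≤ y) (ha' : a' ≤ x)
    {i j : ℤ} (hi : i ∈ ZS T q a b l) (hj : j ∈ ZS T q a' b' l) (h : wd T l i = wd T l j) :
    a' ≤ a := by
  by_contra hlt
  push Not at hlt
  have h1 := hi.1 (i + a' - 1) (by omega) (by omega)
  have h2 := hj.2.1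
  rw [wd_eq_iff] at h
  rcases h2 with h2 | h2
  · omega
  apply h2
  have h3 := h (a' - 1) (by omega)
  have h4 := h (a' - 1 + q) (by omega)
  have e : ((a' - 1 : ℕ) : ℤ) = a' - 1 := by omega
  push_cast at h4
  rw [e] at h3 h4
  rw [show i + ((a' : ℤ) - 1) = i + a' - 1 by ring, show j + ((a' : ℤ) - 1) = j + a' - 1 by ring] at h3
  rw [show i + ((a' : ℤ) - 1 + q) = i + a' - 1 + q by ring,
    show j + ((a' : ℤ) - 1 + q) = j + a' - 1 + q by ring] at h4
  rw [← h3, ← h4, h1]

omit [Fintype C] in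
theorem ZS_le' {a b a' b' x y l : ℕ} (hl : x + y + q ≤ l) (ha : a ≤ x) (hb' : b' ≤ y)
    {i j : ℤ} (hi : i ∈ ZS T q a b l) (hj : j ∈ ZS T q a' b' l) (h : wd T l i = wd T l j) :
    b' ≤ b := by
  by_contra hlt
  push Not at hlt
  have h1 := hi.1 (i + l - b' - q) (by omega) (by omega)
  have h2 := hj.2.2
  rw [wd_eq_iff] at h
  rcases h2 with h2 | h2
  · omega
  apply h2
  have h3 := h (l - b') (by omega)
  have h4 := h (l - b' - q) (by omega)
  have e : ((l - b' : ℕ) : ℤ) = l - b' := by omega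
  have e' : ((l - b' - q : ℕ) : ℤ) = l - b' - q := by omega
  rw [e] at h3
  rw [e'] at h4
  rw [show i + ((l : ℤ) - b') = i + l - b' by ring, show j + ((l : ℤ) - b') = j + l - b' by ring] at h3
  rw [show i + ((l : ℤ) - b' - q) = i + l - b' - q by ring,
    show j + ((l : ℤ) - b' - q) = j + l - b' - q by ring] at h4
  rw [sub_add_cancel] at h1
  rw [← h3, ← h4, h1]

theorem ZZ_split {x y l : ℕ} (hl : x + y + q ≤ l) :
    ZZ T q x y l = ∑ p ∈ Finset.range (x + 1) ×ˢ Finset.range (y + 1), ZP T q p.1 p.2 l := by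
  classical
  unfold ZZ ZP
  norm_cast
  have h1 : (wd T l '' {i : ℤ | PerOn T q (i + x) (i + l - y)}).ncard =
      ((Finset.range (x + 1) ×ˢ Finset.range (y + 1)).biUnion fun p =>
        (Set.toFinite (wd T l '' ZS T q p.1 p.2 l)).toFinset).card := by
    rw [← Set.ncard_coe_finset]
    congr 1
    ext w
    simp only [Set.mem_image, Set.mem_ofPred_eq, Finset.coe_biUnion, Set.Finite.coe_toFinset,
      Set.mem_iUnion, Finset.mem_coe, Finset.mem_product, Finset.mem_range, exists_prop, Prod.exists]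
    constructor
    · rintro ⟨i, hi, rfl⟩
      have hexa : ∃ a : ℕ, PerOn T q (i + a) (i + l - y) := ⟨x, hi⟩
      have hexb : ∃ b : ℕ, PerOn T q (i + x) (i + l - b) := ⟨y, hi⟩
      obtain ⟨a, ha⟩ : ∃ a, a = Nat.find hexa := ⟨_, rfl⟩
      obtain ⟨b, hb⟩ : ∃ b, b = Nat.find hexb := ⟨_, rfl⟩
      have ha1 : PerOn T q (i + a) (i + l - y) := by rw [ha]; exact Nat.find_spec hexa
      have hb1 : PerOn T q (i + x) (i + l - b) := by rw [hb]; exact Nat.find_spec hexb
      have ha2 : a ≤ x := by rw [ha]; exact Nat.find_min' hexa hi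
      have hb2 : b ≤ y := by rw [hb]; exact Nat.find_min' hexb hi
      refine ⟨a, b, ⟨by omega, by omega⟩, i, ⟨?_, ?_, ?_⟩, rfl⟩
      · intro t h1 h2
        rcases lt_or_ge (t + q) (i + l - y) with h3 | h3
        · exact ha1 t h1 h3
        · exact hb1 t (by omega) h2
      · rcases Nat.eq_zero_or_pos a with h0 | h0
        · exact Or.inl h0
        · right
          intro h3
          have h4 := Nat.find_min hexa (m := a - 1) (by omega)
          apply h4
          intro t h5 h6
          have e : ((a - 1 : ℕ) : ℤ) = a - 1 := by omega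
          rw [e] at h5
          rcases eq_or_lt_of_le h5 with h7 | h7
          · rw [← h7, show i + ((a : ℤ) - 1) = i + a - 1 by ring]
            exact h3
          · exact ha1 t (by omega) h6
      · rcases Nat.eq_zero_or_pos b with h0 | h0
        · exact Or.inl h0
        · right
          intro h3
          have h4 := Nat.find_min hexb (m := b - 1) (by omega)
          apply h4
          intro t h5 h6
          have e : ((b - 1 : ℕ) : ℤ) = b - 1 := by omega
          rw [e] at h6
          rcases eq_or_lt_of_le (show t + q ≤ i + l - b by omega) with h7 | h7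
          · have h8 : t = i + l - b - q := by omega
            rw [h7, h8]
            exact h3
          · exact hb1 t h5 h7
    · rintro ⟨a, b, ⟨h1, h2⟩, i, hi, rfl⟩
      exact ⟨i, hi.1.sub (by omega) (by omega), rfl⟩
  rw [h1, Finset.card_biUnion]
  · refine Finset.sum_congr rfl fun p _ => ?_
    rw [Set.ncard_eq_toFinset_card _ (Set.toFinite _)]
  · rintro ⟨a, b⟩ hab ⟨a', b'⟩ hab' hne
    simp only [Function.onFun]
    rw [Finset.disjoint_left]
    intro w hw hw'
    apply hne
    simp only [Set.Finite.mem_toFinset, Set.mem_image] at hw hw'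
    obtain ⟨i, hi, rfl⟩ := hw
    obtain ⟨j, hj, h3⟩ := hw'
    rw [Finset.mem_coe, Finset.mem_product, Finset.mem_range, Finset.mem_range] at hab hab'
    simp only at hab hab'
    have e1 := ZS_le T q (x := x) (y := y) hl (by omega) (by omega) hi hj h3.symm
    have e2 := ZS_le T q (x := x) (y := y) hl (by omega) (by omega) hj hi h3
    have e3 := ZS_le' T q (x := x) (y := y) hl (by omega) (by omega) hi hj h3.symm
    have e4 := ZS_le' T q (x := x) (y := y) hl (by omega) (by omega) hj hi h3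
    rw [Prod.mk.injEq]
    omega

theorem ZZ_eqv (hq : 0 < q) (x y k : ℕ) : Eqv (fun l => ZZ T q x y (l + k))
    (fun l => ∑ p ∈ Finset.range (x + 1) ×ˢ Finset.range (y + 1), ZP T q p.1 p.2 l) := by
  refine Eqv.trans (G := fun l => ∑ p ∈ Finset.range (x + 1) ×ˢ Finset.range (y + 1),
    ZP T q p.1 p.2 (l + k)) ?_ ?_
  · exact Eqv.of_eventually (x + y + q) fun l hl => ZZ_split T q (by omega)
  · refine Eqv.sum _ fun p _ => ?_
    obtain ⟨M, hM⟩ := ZP_bdd T q hq p.1 p.2
    exact Eqv.shift hM k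

/-- the sum of the multiplicities -/
theorem sum_mul' (K l : ℕ) :
    ∑ w ∈ (Set.toFinite (wd T l '' {i : ℤ | NPK q K (wd T l i)})).toFinset, mul T w =
      ZZ T q (K + 1) (K + 1) (l + 2) - ZZ T q (K + 1) K (l + 1) - ZZ T q K (K + 1) (l + 1) +
        ZZ T q K K l := by
  classical
  obtain ⟨S, hS⟩ : ∃ S : Set ℤ, S = {i : ℤ | PerOn T q (i + K) (i + l - K)} := ⟨_, rfl⟩
  have hSN : {i : ℤ | NPK q K (wd T l i)} = S := by
    rw [hS]
    ext i
    simp only [Set.mem_ofPred_eq]
    constructor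
    · intro h t h1 h2
      have h3 := h ⟨(t - i).toNat, by omega⟩ ⟨(t - i).toNat + q, by omega⟩ rfl (by simp; omega)
        (by simp; omega)
      unfold wd at h3
      simp only at h3
      push_cast at h3
      rw [Int.toNat_of_nonneg (by omega)] at h3
      rw [show i + (t - i + q) = t + q by ring, show i + (t - i) = t by ring] at h3
      exact h3
    · intro h s t h1 h2 h3
      have h4 := h (i + s) (by omega) (by omega)
      unfold wd
      rw [h1]
      push_cast
      rw [← add_assoc]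
      exact h4
  have hocc : ∀ w ∈ (Set.toFinite (wd T l '' S)).toFinset, {i | i ∈ S ∧ wd T l i = w} = occ T w := by
    intro w hw
    rw [Set.Finite.mem_toFinset] at hw
    obtain ⟨i0, hi0, rfl⟩ := hw
    ext i
    simp only [occ, Set.mem_ofPred_eq]
    constructor
    · exact fun h => h.2
    · intro h
      refine ⟨?_, h⟩
      rw [← hSN] at hi0 ⊢
      simp only [Set.mem_ofPred_eq] at hi0 ⊢
      rw [h]
      exact hi0
  rw [hSN]
  have hR : (∑ w ∈ (Set.toFinite (wd T l '' S)).toFinset,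
      (((fun i : ℤ => T (i + l)) '' occ T w).ncard : ℤ)) = ZZ T q K (K + 1) (l + 1) := by
    have h1 := ncard_image_prod' S (wd T l) (fun i : ℤ => T (i + l))
    rw [Finset.sum_congr rfl fun w hw => by rw [hocc w hw]] at h1
    unfold ZZ
    rw [← Nat.cast_sum, ← h1]
    congr 1
    have h2 : {i : ℤ | PerOn T q (i + K) (i + ((l + 1 : ℕ) : ℤ) - ((K + 1 : ℕ) : ℤ))} = S := by
      rw [hS]
      ext i
      simp only [Set.mem_ofPred_eq]
      rw [show i + ((l + 1 : ℕ) : ℤ) - ((K + 1 : ℕ) : ℤ) = i + l - K by push_cast; ring]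
    rw [h2]
    apply ncard_image_eq'
    intro i _ j _
    rw [wd_eq_iff, Prod.mk.injEq, wd_eq_iff]
    constructor
    · rintro ⟨h1, h2⟩ t ht
      rcases Nat.lt_succ_iff_lt_or_eq.1 ht with h | rfl
      · exact h1 t h
      · exact h2
    · intro h
      exact ⟨fun t ht => h t (by omega), h l (by omega)⟩
  have hL : (∑ w ∈ (Set.toFinite (wd T l '' S)).toFinset,
      (((fun i : ℤ => T (i - 1)) '' occ T w).ncard : ℤ)) = ZZ T q (K + 1) K (l + 1) := by
    have h1 := ncard_image_prod' S (wd T l) (fun i : ℤ => T (i - 1))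
    rw [Finset.sum_congr rfl fun w hw => by rw [hocc w hw]] at h1
    unfold ZZ
    rw [← Nat.cast_sum, ← h1]
    congr 1
    have h2 : wd T (l + 1) '' {i : ℤ | PerOn T q (i + ((K + 1 : ℕ) : ℤ)) (i + ((l + 1 : ℕ) : ℤ) - K)} =
        (fun i => wd T (l + 1) (i - 1)) '' S := by
      rw [hS]
      ext w
      simp only [Set.mem_image, Set.mem_ofPred_eq]
      constructor
      · rintro ⟨i, hi, rfl⟩
        refine ⟨i + 1, ?_, by rw [add_sub_cancel_right]⟩
        rw [show i + 1 + (K : ℤ) = i + ((K + 1 : ℕ) : ℤ) by push_cast; ring,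
          show i + 1 + (l : ℤ) - K = i + ((l + 1 : ℕ) : ℤ) - K by push_cast; ring]
        exact hi
      · rintro ⟨i, hi, rfl⟩
        refine ⟨i - 1, ?_, rfl⟩
        rw [show i - 1 + ((K + 1 : ℕ) : ℤ) = i + K by push_cast; ring,
          show i - 1 + ((l + 1 : ℕ) : ℤ) - K = i + l - K by push_cast; ring]
        exact hi
    rw [h2]
    apply ncard_image_eq'
    intro i _ j _
    rw [wd_eq_iff, Prod.mk.injEq, wd_eq_iff]
    constructor
    · rintro ⟨h1, h2⟩ t ht
      rcases Nat.eq_zero_or_pos t with rfl | ht0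
      · simpa using h2
      · have h3 := h1 (t - 1) (by omega)
        have e1 : i + ((t - 1 : ℕ) : ℤ) = i - 1 + t := by push_cast [Nat.cast_sub ht0]; ring
        have e2 : j + ((t - 1 : ℕ) : ℤ) = j - 1 + t := by push_cast [Nat.cast_sub ht0]; ring
        rwa [e1, e2] at h3
    · intro h
      refine ⟨fun t ht => ?_, ?_⟩
      · have h2 := h (t + 1) (by omega)
        have e1 : i - 1 + ((t + 1 : ℕ) : ℤ) = i + t := by push_cast; ring
        have e2 : j - 1 + ((t + 1 : ℕ) : ℤ) = j + t := by push_cast; ring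
        rwa [e1, e2] at h2
      · have h2 := h 0 (by omega)
        simpa using h2
  have hB : (∑ w ∈ (Set.toFinite (wd T l '' S)).toFinset,
      (((fun i : ℤ => (T (i - 1), T (i + l))) '' occ T w).ncard : ℤ)) =
        ZZ T q (K + 1) (K + 1) (l + 2) := by
    have h1 := ncard_image_prod' S (wd T l) (fun i : ℤ => (T (i - 1), T (i + l)))
    rw [Finset.sum_congr rfl fun w hw => by rw [hocc w hw]] at h1
    unfold ZZ
    rw [← Nat.cast_sum, ← h1]
    congr 1
    have h2 : wd T (l + 2) '' {i : ℤ | PerOn T q (i + ((K + 1 : ℕ) : ℤ))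
        (i + ((l + 2 : ℕ) : ℤ) - ((K + 1 : ℕ) : ℤ))} = (fun i => wd T (l + 2) (i - 1)) '' S := by
      rw [hS]
      ext w
      simp only [Set.mem_image, Set.mem_ofPred_eq]
      constructor
      · rintro ⟨i, hi, rfl⟩
        refine ⟨i + 1, ?_, by rw [add_sub_cancel_right]⟩
        rw [show i + 1 + (K : ℤ) = i + ((K + 1 : ℕ) : ℤ) by push_cast; ring,
          show i + 1 + (l : ℤ) - K = i + ((l + 2 : ℕ) : ℤ) - ((K + 1 : ℕ) : ℤ) by push_cast; ring]
        exact hi
      · rintro ⟨i, hi, rfl⟩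
        refine ⟨i - 1, ?_, rfl⟩
        rw [show i - 1 + ((K + 1 : ℕ) : ℤ) = i + K by push_cast; ring,
          show i - 1 + ((l + 2 : ℕ) : ℤ) - ((K + 1 : ℕ) : ℤ) = i + l - K by push_cast; ring]
        exact hi
    rw [h2]
    apply ncard_image_eq'
    intro i _ j _
    rw [wd_eq_iff, Prod.mk.injEq, Prod.mk.injEq, wd_eq_iff]
    constructor
    · rintro ⟨h1, h2, h3⟩ t ht
      rcases Nat.eq_zero_or_pos t with rfl | ht0
      · simpa using h2
      · rcases Nat.lt_or_ge (t - 1) l with htn | htn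
        · have h4 := h1 (t - 1) htn
          have e1 : i + ((t - 1 : ℕ) : ℤ) = i - 1 + t := by push_cast [Nat.cast_sub ht0]; ring
          have e2 : j + ((t - 1 : ℕ) : ℤ) = j - 1 + t := by push_cast [Nat.cast_sub ht0]; ring
          rwa [e1, e2] at h4
        · have e0 : t = l + 1 := by omega
          subst e0
          have e1 : i - 1 + ((l + 1 : ℕ) : ℤ) = i + l := by push_cast; ring
          have e2 : j - 1 + ((l + 1 : ℕ) : ℤ) = j + l := by push_cast; ring
          rw [e1, e2]
          exact h3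
    · intro h
      refine ⟨fun t ht => ?_, ?_, ?_⟩
      · have h2 := h (t + 1) (by omega)
        have e1 : i - 1 + ((t + 1 : ℕ) : ℤ) = i + t := by push_cast; ring
        have e2 : j - 1 + ((t + 1 : ℕ) : ℤ) = j + t := by push_cast; ring
        rwa [e1, e2] at h2
      · have h2 := h 0 (by omega)
        simpa using h2
      · have h2 := h (l + 1) (by omega)
        have e1 : i - 1 + ((l + 1 : ℕ) : ℤ) = i + l := by push_cast; ring
        have e2 : j - 1 + ((l + 1 : ℕ) : ℤ) = j + l := by push_cast; ring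
        rwa [e1, e2] at h2
  have h0 : ∑ w ∈ (Set.toFinite (wd T l '' S)).toFinset, (1 : ℤ) = ZZ T q K K l := by
    rw [Finset.sum_const, nsmul_eq_mul, mul_one]
    unfold ZZ
    rw [← hS, Set.ncard_eq_toFinset_card _ (Set.toFinite _)]
  unfold mul
  rw [Finset.sum_add_distrib, Finset.sum_sub_distrib, Finset.sum_sub_distrib, hB, hL, hR, h0]

end

theorem t_EXA : S_EXA := by
  classical
  intro C _ T q K hq
  obtain ⟨R, hR⟩ : Eqv (fun l => ∑ w ∈ (Set.toFinite (wd T l '' {i : ℤ | NPK q K (wd T l i)})).toFinset,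
      mul T w) (fun l => (NX T q (K + 1) (K + 1) l : ℤ)) := by
    have h1 : (fun l => ∑ w ∈ (Set.toFinite (wd T l '' {i : ℤ | NPK q K (wd T l i)})).toFinset,
        mul T w) = fun l => ZZ T q (K + 1) (K + 1) (l + 2) - ZZ T q (K + 1) K (l + 1) -
          ZZ T q K (K + 1) (l + 1) + ZZ T q K K (l + 0) := by
      funext l
      rw [sum_mul', add_zero]
    rw [h1]
    have h2 := (((ZZ_eqv T q hq (K + 1) (K + 1) 2).sub (ZZ_eqv T q hq (K + 1) K 1)).sub
      (ZZ_eqv T q hq K (K + 1) 1)).add (ZZ_eqv T q hq K K 0)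
    refine h2.trans ?_
    have h3 : ∀ l, (∑ p ∈ Finset.range (K + 1 + 1) ×ˢ Finset.range (K + 1 + 1), ZP T q p.1 p.2 l -
        ∑ p ∈ Finset.range (K + 1 + 1) ×ˢ Finset.range (K + 1), ZP T q p.1 p.2 l -
        ∑ p ∈ Finset.range (K + 1) ×ˢ Finset.range (K + 1 + 1), ZP T q p.1 p.2 l +
        ∑ p ∈ Finset.range (K + 1) ×ˢ Finset.range (K + 1), ZP T q p.1 p.2 l) =
        ZP T q (K + 1) (K + 1) l := by
      intro l
      simp only [Finset.sum_product]
      rw [Finset.sum_range_succ (fun x => ∑ y ∈ Finset.range (K + 1 + 1), ZP T q x y l) (K + 1),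
        Finset.sum_range_succ (fun x => ∑ y ∈ Finset.range (K + 1), ZP T q x y l) (K + 1),
        Finset.sum_range_succ (fun y => ZP T q (K + 1) y l) (K + 1)]
      ring
    simp only [h3]
    obtain ⟨M, hM⟩ := ZP_bdd T q hq (K + 1) (K + 1)
    refine (Eqv.shift hM (2 * (K + 1))).symm.trans ?_
    have h4 : (fun l => ZP T q (K + 1) (K + 1) (l + 2 * (K + 1))) =
        fun l => (NX T q (K + 1) (K + 1) l : ℤ) := by
      funext l
      unfold ZP NX ZS
      have e : l + 2 * (K + 1) = K + 1 + l + (K + 1) := by ring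
      rw [e]
      congr 3
      ext i
      simp only [Set.mem_ofPred_eq]
      rw [show i + ((K + 1 + l + (K + 1) : ℕ) : ℤ) - ((K + 1 : ℕ) : ℤ) = i + ((K + 1 : ℕ) : ℤ) + l by
        push_cast; ring]
      simp
    rw [h4]
    exact Eqv.refl _
  refine ⟨R, fun n => ?_⟩
  rw [← Finset.sum_sub_distrib]
  exact hR n

end Pool.Agent.T2h38.FC
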