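import Pool.Agent.T2h38.FC.Des
import Pool.Agent.T2h96.FC.Stm2

/-!
Growth of expanding intervals.
-/

set_option autoImplicit false

open Filter Pool.Agent.T2h96.FC

namespace Pool.Agent.T2h38.FC

theorem sum_count {B : Type} [Fintype B] [DecidableEq B] (F : B → ℕ) (L : List B) :
    (L.map F).sum = ∑ c, L.count c * F c := by
  induction L with
  | nil => simp
  | cons x L ih =>
    rw [List.map_cons, List.sum_cons, ih]
    simp only [List.count_cons, add_mul, Finset.sum_add_distrib]
    rw [add_comm]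
    congr 1
    simp only [beq_iff_eq, ite_mul, one_mul, zero_mul]
    rw [Finset.sum_ite_eq Finset.univ x F]
    simp

section

variable {B C : Type} [Fintype B] [DecidableEq B] {τ : B → List B} {f : B → List C}
  {V : ℤ → B} {U : ℤ → C} {c d : ℤ → ℤ}

/-- the length of `f (τ^k b)` -/
noncomputable def gl (τ : B → List B) (f : B → List C) (k : ℕ) (b : B) : ℕ :=
  G (fun b c => (τ b).count c) (fun b => (f b).length) k b

theorem gl_zero (b : B) : gl τ f 0 b = (f b).length := rfl

theorem gl_succ (k : ℕ) (b : B) : gl τ f (k + 1) b = ((τ b).map (gl τ f k)).sum := by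
  rw [sum_count]
  rfl

theorem two_pow_le_gl (h2 : ∀ b, 2 ≤ (τ b).length) (hf : ∀ b, f b ≠ []) (k : ℕ) (b : B) :
    2 ^ k ≤ gl τ f k b := by
  induction k generalizing b with
  | zero =>
    rw [gl_zero, pow_zero]
    exact List.length_pos_iff.2 (hf b)
  | succ k ih =>
    rw [gl_succ, pow_succ, mul_comm]
    have h1 : ∀ L : List B, L.length * 2 ^ k ≤ (L.map (gl τ f k)).sum := by
      intro L
      induction L with
      | nil => simp
      | cons x L ihL =>
        rw [List.length_cons, List.map_cons, List.sum_cons, add_mul, one_mul, add_comm]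
        exact Nat.add_le_add (ih x) ihL
    exact le_trans (Nat.mul_le_mul_right _ (h2 b)) (h1 _)

/-- the length of the image of a letter -/
theorem len_one (hc : Des τ V V c) (hd : Des f V U d) (k : ℕ) (x : ℤ) :
    d (c^[k] (x + 1)) - d (c^[k] x) = gl τ f k (V x) ∧
    ∀ n : ℕ, d (c^[k] (x + n)) - d (c^[k] x) = ((seg V x n).map (gl τ f k)).sum := by
  induction k generalizing x with
  | zero =>
    have h1 : ∀ x, d (x + 1) - d x = gl τ f 0 (V x) := by
      intro x
      rw [hd.step, gl_zero]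
      ring
    refine ⟨h1 x, fun n => ?_⟩
    induction n with
    | zero => simp
    | succ n ih =>
      rw [seg_succ, List.map_append, List.sum_append]
      simp only [Function.iterate_zero, id_eq, List.map_cons, List.map_nil, List.sum_cons,
        List.sum_nil, add_zero] at ih ⊢
      have h2 := h1 (x + n)
      push_cast at ih ⊢
      rw [← add_assoc]
      linarith
  | succ k ih =>
    have h1 : ∀ x, d (c^[k + 1] (x + 1)) - d (c^[k + 1] x) = gl τ f (k + 1) (V x) := by
      intro x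
      rw [Function.iterate_succ_apply, Function.iterate_succ_apply, hc.step, (ih (c x)).2,
        ← Des.seg_eq hc, gl_succ]
    refine ⟨h1 x, fun n => ?_⟩
    induction n with
    | zero => simp
    | succ n ih =>
      rw [seg_succ, List.map_append, List.sum_append]
      simp only [List.map_cons, List.map_nil, List.sum_cons, List.sum_nil, add_zero] at ih ⊢
      have h2 := h1 (x + n)
      push_cast at ih ⊢
      rw [← add_assoc]
      linarith

end

theorem t_GRO (hGROW : S_GROW) : S_GRO := by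
  intro B C _ _ τ f V U c d h2 hf hc hd D a b δ δ' hδ ha hb hab
  classical
  have hne : ∀ b, τ b ≠ [] := fun b hb => by have := h2 b; rw [hb] at this; simp at this
  have hmc := Des.strictMono hne hc
  have hmd := Des.strictMono hf hd
  have hmck : ∀ k, StrictMono (c^[k]) := fun k => hmc.iterate k
  -- types of the letters
  have htype : ∀ x : B, ∃ (θ : ℝ) (e : ℕ) (κ K : ℝ), 1 < θ ∧ 0 < κ ∧ 0 < K ∧ ∀ k : ℕ,
      κ * ((k : ℝ) + 1) ^ e * θ ^ k ≤ gl τ f k x ∧ (gl τ f k x : ℝ) ≤ K * ((k : ℝ) + 1) ^ e * θ ^ k := by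
    refine hGROW B (fun b c => (τ b).count c) (fun b => (f b).length)
      (fun b => List.length_pos_iff.2 (hf b)) fun b => ?_
    exact tendsto_atTop_mono (fun k => two_pow_le_gl h2 hf k b)
      (tendsto_pow_atTop_atTop_of_one_lt (by norm_num))
  choose θ e κ K hθ hκ hK hbd using htype
  -- the letters of the intervals
  obtain ⟨R, hR⟩ : ∃ R : Finset B, ∀ x, x ∈ R ↔ ∃ k t, a k ≤ t ∧ t < b k ∧ V t = x :=
    ⟨Finset.univ.filter fun x => ∃ k t, a k ≤ t ∧ t < b k ∧ V t = x, fun x => by simp⟩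
  have hRne : R.Nonempty := ⟨V (a 0), (hR _).2 ⟨0, a 0, le_rfl, hab, rfl⟩⟩
  obtain ⟨x, hxR, hmax⟩ := R.exists_max_image (fun x => toLex (θ x, e x)) hRne
  have hθ0 : ∀ y, 0 < θ y := fun y => zero_lt_one.trans (hθ y)
  -- upper bounds for the letters
  have hup : ∃ K0 : ℝ, 0 < K0 ∧ ∀ y ∈ R, ∀ k : ℕ, (gl τ f k y : ℝ) ≤ K0 * ((k : ℝ) + 1) ^ e x * θ x ^ k := by
    have h1 : ∀ y ∈ R, ∃ K0 : ℝ, 0 < K0 ∧ ∀ k : ℕ,
        (gl τ f k y : ℝ) ≤ K0 * ((k : ℝ) + 1) ^ e x * θ x ^ k := by
      intro y hy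
      have h3 := hmax y hy
      rw [Prod.Lex.le_iff] at h3
      simp only [ofLex_toLex] at h3
      rcases h3 with h3 | ⟨h3, h4⟩
      · have h5 : Tendsto (fun n : ℕ => (n : ℝ) ^ e y * (θ y / θ x) ^ n) atTop (nhds 0) := by
          apply tendsto_pow_const_mul_const_pow_of_abs_lt_one
          rw [abs_of_pos (div_pos (hθ0 y) (hθ0 x)), div_lt_one (hθ0 x)]
          exact h3
        obtain ⟨L, hL⟩ := h5.bddAbove_range
        have hL' : ∀ n : ℕ, (n : ℝ) ^ e y * (θ y / θ x) ^ n ≤ L := fun n => hL ⟨n, rfl⟩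
        have hL0 : 0 < L := lt_of_lt_of_le (by have := hθ0 y; have := hθ0 x; positivity) (hL' 1)
        refine ⟨K y * (L * (θ x / θ y)), by have := hK y; have := hθ0 y; have := hθ0 x; positivity,
          fun k => (hbd y k).2.trans ?_⟩
        have h6 := hL' (k + 1)
        push_cast at h6
        have h7 : ((k : ℝ) + 1) ^ e y * θ y ^ k ≤ L * (θ x / θ y) * θ x ^ k := by
          have h8 : ((k : ℝ) + 1) ^ e y * θ y ^ k =
              (((k : ℝ) + 1) ^ e y * (θ y / θ x) ^ (k + 1)) * ((θ x / θ y) * θ x ^ k) := by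
            have := (hθ0 y).ne'
            have := (hθ0 x).ne'
            rw [div_pow, pow_succ, pow_succ]
            field_simp
          rw [h8, mul_assoc L]
          have := hθ0 y
          have := hθ0 x
          exact mul_le_mul_of_nonneg_right h6 (by positivity)
        have h9 : (1 : ℝ) ≤ ((k : ℝ) + 1) ^ e x := one_le_pow₀ (by linarith [k.cast_nonneg (α := ℝ)])
        calc K y * ((k : ℝ) + 1) ^ e y * θ y ^ k = K y * (((k : ℝ) + 1) ^ e y * θ y ^ k) := by ring
          _ ≤ K y * (L * (θ x / θ y) * θ x ^ k) := mul_le_mul_of_nonneg_left h7 (hK y).le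
          _ = K y * (L * (θ x / θ y)) * 1 * θ x ^ k := by ring
          _ ≤ K y * (L * (θ x / θ y)) * ((k : ℝ) + 1) ^ e x * θ x ^ k := by
              have := hK y
              have := hθ0 y
              have := hθ0 x
              exact mul_le_mul_of_nonneg_right (mul_le_mul_of_nonneg_left h9 (by positivity))
                (by positivity)
      · refine ⟨K y, hK y, fun k => (hbd y k).2.trans ?_⟩
        rw [h3]
        have := hK y
        have := hθ0 x
        have h9 : ((k : ℝ) + 1) ^ e y ≤ ((k : ℝ) + 1) ^ e x :=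
          pow_le_pow_right₀ (by linarith [k.cast_nonneg (α := ℝ)]) h4
        exact mul_le_mul_of_nonneg_right (mul_le_mul_of_nonneg_left h9 (by positivity)) (by positivity)
    choose! K0 hK0 hK1 using h1
    refine ⟨∑ y ∈ R, K0 y, Finset.sum_pos hK0 hRne, fun y hy k => (hK1 y hy k).trans ?_⟩
    have h3 : K0 y ≤ ∑ y ∈ R, K0 y := Finset.single_le_sum (fun y hy => (hK0 y hy).le) hy
    have := hθ0 x
    exact mul_le_mul_of_nonneg_right (mul_le_mul_of_nonneg_right h3 (by positivity)) (by positivity)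
  obtain ⟨K0, hK0, hK0b⟩ := hup
  -- monotonicity of the intervals
  have habk : ∀ k, a k < b k := by
    intro k
    induction k with
    | zero => exact hab
    | succ k ih =>
      rw [ha, hb]
      have := hmc ih
      have := hδ k
      omega
  have hmon : ∀ j n : ℕ, a (j + n) ≤ c^[n] (a j) ∧ c^[n] (b j) ≤ b (j + n) := by
    intro j n
    induction n with
    | zero => simp
    | succ n ih =>
      rw [← add_assoc, ha, hb, Function.iterate_succ_apply', Function.iterate_succ_apply']
      have h3 := hmc.monotone ih.1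
      have h4 := hmc.monotone ih.2
      have := hδ (j + n)
      constructor <;> omega
  -- pieces
  have hpiece : ∀ (k : ℕ) (x0 : ℤ) (n : ℕ), (∃ j, a j ≤ x0 ∧ x0 + n ≤ b j) →
      ((d (c^[k] (x0 + n)) - d (c^[k] x0) : ℤ) : ℝ) ≤ n * (K0 * ((k : ℝ) + 1) ^ e x * θ x ^ k) := by
    rintro k x0 n ⟨j, h3, h4⟩
    rw [(len_one hc hd k x0).2 n]
    induction n with
    | zero => simp
    | succ n ih =>
      rw [seg_succ, List.map_append, List.sum_append]
      simp only [List.map_cons, List.map_nil, List.sum_cons, List.sum_nil, add_zero]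
      have h5 := ih (by push_cast at h4; linarith)
      have h6 := hK0b (V (x0 + n)) ((hR _).2 ⟨j, x0 + n, by omega, by push_cast at h4; omega, rfl⟩) k
      push_cast at h5 ⊢
      linarith
  have hD0 : 0 ≤ D := (hδ 0).1.trans (hδ 0).2.1
  have hDR : (0 : ℝ) ≤ D := by exact_mod_cast hD0
  -- the upper bound
  have hupper : ∀ N k : ℕ, k ≤ N → ((d (c^[N - k] (b k)) - d (c^[N - k] (a k)) : ℤ) : ℝ) ≤
      ((b 0 - a 0 : ℤ) : ℝ) * (K0 * ((N : ℝ) + 1) ^ e x * θ x ^ N) +
        ∑ j ∈ Finset.range k, 2 * D * (K0 * ((N : ℝ) + 1) ^ e x * θ x ^ (N - 1 - j)) := by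
    intro N k
    induction k with
    | zero =>
      intro _
      rw [Finset.range_zero, Finset.sum_empty, add_zero, Nat.sub_zero]
      have h3 := hpiece N (a 0) (b 0 - a 0).toNat ⟨0, le_rfl, by omega⟩
      have h4 : a 0 + ((b 0 - a 0).toNat : ℤ) = b 0 := by omega
      rw [h4] at h3
      have h5 : (((b 0 - a 0).toNat : ℕ) : ℝ) = ((b 0 - a 0 : ℤ) : ℝ) := by
        have : (((b 0 - a 0).toNat : ℤ)) = b 0 - a 0 := by omega
        rw [← this]
        push_cast
        rfl
      rw [h5] at h3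
      exact h3
    | succ k ih =>
      intro hk
      have h3 := ih (by omega)
      rw [Finset.sum_range_succ]
      obtain ⟨n, hn⟩ : ∃ n, N - k = n + 1 := ⟨N - k - 1, by omega⟩
      have hn' : N - (k + 1) = n := by omega
      have hn'' : N - 1 - k = n := by omega
      rw [hn] at h3
      rw [hn', hn'', ha, hb]
      rw [Function.iterate_succ_apply, Function.iterate_succ_apply] at h3
      have h4 := hpiece n (c (b k)) (δ' k).toNat ⟨k + 1, by
        rw [ha]
        have := hmc (habk k)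
        have := hδ k
        omega, by
        rw [hb]
        have := hδ k
        omega⟩
      have h5 := hpiece n (c (a k) - δ k) (δ k).toNat ⟨k + 1, by rw [ha], by
        rw [hb]
        have := hmc (habk k)
        have := hδ k
        omega⟩
      have e1 : ((δ' k).toNat : ℤ) = δ' k := by have := hδ k; omega
      have e2 : ((δ k).toNat : ℤ) = δ k := by have := hδ k; omega
      have e3 : (((δ' k).toNat : ℕ) : ℝ) = ((δ' k : ℤ) : ℝ) := by
        exact_mod_cast congrArg (fun z : ℤ => (z : ℝ)) e1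
      have e4 : (((δ k).toNat : ℕ) : ℝ) = ((δ k : ℤ) : ℝ) := by
        exact_mod_cast congrArg (fun z : ℤ => (z : ℝ)) e2
      rw [e1, e3] at h4
      rw [e2, e4, sub_add_cancel] at h5
      have h6 : ((δ' k : ℤ) : ℝ) ≤ D := by exact_mod_cast (hδ k).2.2.2
      have h7 : ((δ k : ℤ) : ℝ) ≤ D := by exact_mod_cast (hδ k).2.1
      have hT : (0 : ℝ) ≤ K0 * ((n : ℝ) + 1) ^ e x * θ x ^ n := by
        have := hθ0 x
        positivity
      have hT' : K0 * ((n : ℝ) + 1) ^ e x * θ x ^ n ≤ K0 * ((N : ℝ) + 1) ^ e x * θ x ^ n := by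
        have h8 : (n : ℝ) + 1 ≤ (N : ℝ) + 1 := by
          have : n ≤ N := by omega
          have : (n : ℝ) ≤ N := by exact_mod_cast this
          linarith
        have := hθ0 x
        have h9 : ((n : ℝ) + 1) ^ e x ≤ ((N : ℝ) + 1) ^ e x := pow_le_pow_left₀ (by positivity) h8 _
        exact mul_le_mul_of_nonneg_right (mul_le_mul_of_nonneg_left h9 hK0.le) (by positivity)
      have h10 : ((δ' k : ℤ) : ℝ) * (K0 * ((n : ℝ) + 1) ^ e x * θ x ^ n) ≤
          D * (K0 * ((N : ℝ) + 1) ^ e x * θ x ^ n) := mul_le_mul h6 hT' hT hDR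
      have h11 : ((δ k : ℤ) : ℝ) * (K0 * ((n : ℝ) + 1) ^ e x * θ x ^ n) ≤
          D * (K0 * ((N : ℝ) + 1) ^ e x * θ x ^ n) := mul_le_mul h7 hT' hT hDR
      push_cast at h3 h4 h5 ⊢
      linarith
  have hθx := hθ x
  have hgeo : ∀ N : ℕ, ∑ j ∈ Finset.range N, θ x ^ (N - 1 - j) ≤ θ x ^ N / (θ x - 1) := by
    intro N
    rw [Finset.sum_range_reflect (fun j => θ x ^ j) N, geom_sum_eq hθx.ne']
    apply div_le_div_of_nonneg_right _ (by linarith)
    linarith
  -- the lower bound
  obtain ⟨j0, t0, ht1, ht2, ht3⟩ := (hR x).1 hxR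
  have hlow : ∀ n : ℕ, (gl τ f n x : ℝ) ≤ ((d (b (j0 + n)) - d (a (j0 + n)) : ℤ) : ℝ) := by
    intro n
    have h3 := (len_one hc hd n t0).1
    rw [ht3] at h3
    have h4 := hmon j0 n
    have h5 : c^[n] (a j0) ≤ c^[n] t0 := (hmck n).monotone ht1
    have h6 : c^[n] (t0 + 1) ≤ c^[n] (b j0) := (hmck n).monotone (by omega)
    have h7 : d (a (j0 + n)) ≤ d (c^[n] t0) := hmd.monotone (by omega)
    have h8 : d (c^[n] (t0 + 1)) ≤ d (b (j0 + n)) := hmd.monotone (by omega)
    have h9 : (gl τ f n x : ℤ) ≤ d (b (j0 + n)) - d (a (j0 + n)) := by omega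
    exact_mod_cast h9
  refine ⟨θ x, e x, min (κ x) 1 / (((j0 : ℝ) + 1) ^ e x * θ x ^ j0),
    ((b 0 - a 0 : ℤ) : ℝ) * K0 + 2 * D * K0 / (θ x - 1), hθx, ?_, ?_, fun N => ⟨?_, ?_⟩⟩
  · have := hκ x
    have := hθ0 x
    have : 0 < min (κ x) 1 := lt_min (hκ x) one_pos
    positivity
  · have h3 : (0 : ℝ) < ((b 0 - a 0 : ℤ) : ℝ) := by
      have : 0 < b 0 - a 0 := by omega
      exact_mod_cast this
    have h4 : 0 < θ x - 1 := by linarith
    positivity
  · have hx0 := hθ0 x
    rw [div_mul_eq_mul_div, div_mul_eq_mul_div, div_le_iff₀ (by positivity)]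
    rcases lt_or_ge N j0 with hN | hN
    · have h3 : (1 : ℝ) ≤ ((d (b N) - d (a N) : ℤ) : ℝ) := by
        have h4 := hmd (habk N)
        have : 1 ≤ d (b N) - d (a N) := by omega
        exact_mod_cast this
      have h4 : ((N : ℝ) + 1) ^ e x ≤ ((j0 : ℝ) + 1) ^ e x := by
        apply pow_le_pow_left₀ (by positivity)
        have : (N : ℝ) ≤ j0 := by exact_mod_cast hN.le
        linarith
      have h5 : θ x ^ N ≤ θ x ^ j0 := pow_le_pow_right₀ hθx.le hN.le
      calc min (κ x) 1 * ((N : ℝ) + 1) ^ e x * θ x ^ N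
          ≤ 1 * ((N : ℝ) + 1) ^ e x * θ x ^ N := by
            exact mul_le_mul_of_nonneg_right (mul_le_mul_of_nonneg_right (min_le_right _ _)
              (by positivity)) (by positivity)
        _ ≤ 1 * (((j0 : ℝ) + 1) ^ e x * θ x ^ j0) := by
            rw [one_mul, one_mul]
            exact mul_le_mul h4 h5 (by positivity) (by positivity)
        _ ≤ _ := mul_le_mul_of_nonneg_right h3 (by positivity)
    · obtain ⟨n, rfl⟩ := Nat.exists_eq_add_of_le hN
      have h3 := (hbd x n).1.trans (hlow n)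
      have h4 : ((j0 + n : ℕ) : ℝ) + 1 ≤ ((n : ℝ) + 1) * ((j0 : ℝ) + 1) := by
        push_cast
        nlinarith [n.cast_nonneg (α := ℝ), j0.cast_nonneg (α := ℝ),
          mul_nonneg (n.cast_nonneg (α := ℝ)) (j0.cast_nonneg (α := ℝ))]
      have h5 : (((j0 + n : ℕ) : ℝ) + 1) ^ e x ≤ ((n : ℝ) + 1) ^ e x * ((j0 : ℝ) + 1) ^ e x := by
        rw [← mul_pow]
        exact pow_le_pow_left₀ (by positivity) h4 _
      calc min (κ x) 1 * (((j0 + n : ℕ) : ℝ) + 1) ^ e x * θ x ^ (j0 + n)
          ≤ κ x * (((n : ℝ) + 1) ^ e x * ((j0 : ℝ) + 1) ^ e x) * θ x ^ (j0 + n) := by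
            have := hκ x
            exact mul_le_mul_of_nonneg_right (mul_le_mul (min_le_left _ _) h5 (by positivity)
              (by positivity)) (by positivity)
        _ = κ x * ((n : ℝ) + 1) ^ e x * θ x ^ n * (((j0 : ℝ) + 1) ^ e x * θ x ^ j0) := by
            rw [pow_add]
            ring
        _ ≤ _ := mul_le_mul_of_nonneg_right h3 (by positivity)
  · have h3 := hupper N N le_rfl
    rw [Nat.sub_self, Function.iterate_zero, id_eq, id_eq] at h3
    refine h3.trans ?_
    have hx0 := hθ0 x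
    have h4 : ∑ j ∈ Finset.range N, 2 * (D : ℝ) * (K0 * ((N : ℝ) + 1) ^ e x * θ x ^ (N - 1 - j)) =
        2 * D * K0 * ((N : ℝ) + 1) ^ e x * ∑ j ∈ Finset.range N, θ x ^ (N - 1 - j) := by
      rw [Finset.mul_sum]
      exact Finset.sum_congr rfl fun j _ => by ring
    rw [h4]
    have h5 := mul_le_mul_of_nonneg_left (hgeo N)
      (show (0 : ℝ) ≤ 2 * D * K0 * ((N : ℝ) + 1) ^ e x by positivity)
    refine (add_le_add_right h5 _).trans (le_of_eq ?_)
    ring

end Pool.Agent.T2h38.FC
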