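import Pool.Agent.T2h38.FC.Des

/-!
Long periodic factors of a fixed point have a common period.
-/

set_option autoImplicit false

open Filter Pool.Agent.T2h96.FC

namespace Pool.Agent.T2h38.FC

/-! ### limits along an ultrafilter -/

theorem ulim_fin {B : Type} [Finite B] (f : ℕ → B) :
    ∃ b, ∀ᶠ n in (hyperfilter ℕ : Filter ℕ), f n = b := by
  obtain ⟨b, hb⟩ := Ultrafilter.eq_pure_of_finite ((hyperfilter ℕ).map f)
  refine ⟨b, ?_⟩
  have h1 : {x | x = b} ∈ (hyperfilter ℕ).map f := by
    rw [hb]
    simp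
  exact h1

theorem ulim_int (f : ℕ → ℤ) (M : ℤ) (h : ∀ n, |f n| ≤ M) :
    ∃ b, ∀ᶠ n in (hyperfilter ℕ : Filter ℕ), f n = b := by
  obtain ⟨b, -, hb⟩ := Ultrafilter.eq_pure_of_finite_mem (f := (hyperfilter ℕ).map f)
    (Set.finite_Icc (-M) M) (by
      have : f ⁻¹' (Set.Icc (-M) M) = Set.univ := by
        ext n
        simp only [Set.mem_preimage, Set.mem_Icc, Set.mem_univ, iff_true]
        exact abs_le.1 (h n)
      change f ⁻¹' (Set.Icc (-M) M) ∈ hyperfilter ℕ
      rw [this]
      exact Filter.univ_mem)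
  refine ⟨b, ?_⟩
  have h1 : {x | x = b} ∈ (hyperfilter ℕ).map f := by
    rw [hb]
    simp
  exact h1

theorem u_ge (m : ℕ) : ∀ᶠ n in (hyperfilter ℕ : Filter ℕ), m ≤ n :=
  Nat.hyperfilter_le_atTop (eventually_ge_atTop m)

/-! ### the subshift of a word -/

/-- the words whose windows occur in `V` -/
def XV {B : Type} (V : ℤ → B) : Set (ℤ → B) :=
  {W | ∀ n : ℕ, ∃ i : ℤ, ∀ t : ℤ, |t| ≤ n → W t = V (i + t)}

section

variable {B : Type} [Fintype B] {τ : B → List B} {V : ℤ → B} {c : ℤ → ℤ}

omit [Fintype B] in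
theorem XV.shift {W : ℤ → B} (h : W ∈ XV V) (a : ℤ) : (fun t => W (t + a)) ∈ XV V := by
  intro n
  obtain ⟨i, hi⟩ := h (n + a.natAbs)
  refine ⟨i + a, fun t ht => ?_⟩
  have h1 := hi (t + a) (by
    push_cast
    rw [abs_le] at ht ⊢
    have h2 := le_abs_self a
    have h3 := neg_abs_le a
    omega)
  simp only
  rw [h1]
  congr 1
  ring

theorem bdd_step (h : Des τ V V c) : ∃ M : ℕ, ∀ (n : ℕ) (j : ℤ), c (j + n) ≤ c j + M * n := by
  refine ⟨∑ b, (τ b).length, fun n j => ?_⟩
  induction n with
  | zero => simp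
  | succ n ih =>
    have h1 := h.step (j + n)
    have h2 : (τ (V (j + n))).length ≤ ∑ b, (τ b).length :=
      Finset.single_le_sum (f := fun b => (τ b).length) (fun _ _ => Nat.zero_le _) (Finset.mem_univ _)
    have h3 : ((τ (V (j + n))).length : ℤ) ≤ ((∑ b, (τ b).length : ℕ) : ℤ) := by exact_mod_cast h2
    have e : j + ((n + 1 : ℕ) : ℤ) = j + n + 1 := by push_cast; ring
    rw [e, h1]
    push_cast at h3 ih ⊢
    nlinarith

/-- every word of the subshift has a preimage -/
theorem exists_preimage (hτ : ∀ b, τ b ≠ []) (h : Des τ V V c) {W : ℤ → B} (hW : W ∈ XV V) :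
    ∃ y ∈ XV V, ∃ C, Des τ y W C := by
  classical
  have hmono := Des.strictMono hτ h
  obtain ⟨M, hM⟩ := bdd_step h
  choose i hi using hW
  choose j hj1 hj2 using fun n => exists_block hmono (i n)
  have hy : ∀ r : ℤ, ∃ b, ∀ᶠ n in (hyperfilter ℕ : Filter ℕ), V (j n + r) = b := fun r => ulim_fin _
  choose y hy using hy
  have hC : ∀ r : ℤ, ∃ b, ∀ᶠ n in (hyperfilter ℕ : Filter ℕ), c (j n + r) - i n = b := by
    intro r
    refine ulim_int _ (M * r.natAbs + M) fun n => ?_
    have h0 := hM 1 (j n)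
    have h00 := hj1 n
    have h01 := hj2 n
    push_cast at h0
    rw [mul_one] at h0
    rcases Int.eq_nat_or_neg r with ⟨q, rfl | rfl⟩
    · have h1 := hM q (j n)
      have h2 := hmono.monotone (show j n ≤ j n + q by omega)
      rw [Int.natAbs_natCast, abs_le]
      constructor
      · have : (0 : ℤ) ≤ M * q := by positivity
        linarith
      · linarith
    · have h1 := hM q (j n + -q)
      rw [neg_add_cancel_right] at h1
      have h2 := hmono.monotone (show j n + -q ≤ j n by omega)
      rw [Int.natAbs_neg, Int.natAbs_natCast, abs_le]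
      have : (0 : ℤ) ≤ M * q := by positivity
      constructor
      · linarith
      · linarith
  choose C hC using hC
  refine ⟨y, ?_, C, ⟨fun r => ?_, fun r q hq => ?_⟩⟩
  · intro m
    have h1 : ∀ᶠ n in (hyperfilter ℕ : Filter ℕ), ∀ r ∈ Finset.Icc (-(m : ℤ)) m, V (j n + r) = y r :=
      (Filter.eventually_all_finset _).2 fun r _ => hy r
    obtain ⟨n, hn⟩ := h1.exists
    exact ⟨j n, fun t ht => (hn t (by rw [Finset.mem_Icc]; exact abs_le.1 ht)).symm⟩
  · obtain ⟨n, h1, h2, h3⟩ := ((hC (r + 1)).and ((hC r).and (hy r))).exists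
    have h4 := h.step (j n + r)
    rw [h3] at h4
    rw [← add_assoc] at h1
    rw [← h1, ← h2, h4]
    ring
  · obtain ⟨n, h1, h2, h3⟩ := ((hC r).and ((hy r).and (u_ge (C r + q).natAbs))).exists
    have h4 := h.val (j n + r) q (by rw [h2]; exact hq)
    rw [h2] at h4
    rw [h4]
    have h5 := hi n (C r + q) (by
      rw [← Int.natCast_natAbs]
      exact_mod_cast h3)
    rw [h5, ← h1]
    congr 2
    ring

omit [Fintype B] in
/-- images of words of the subshift -/
theorem image_mem (hτ : ∀ b, τ b ≠ []) (h : Des τ V V c) {y W : ℤ → B} {C : ℤ → ℤ} (hy : y ∈ XV V)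
    (hW : Des τ y W C) : W ∈ XV V := by
  intro n
  have hmono := Des.strictMono hτ hW
  obtain ⟨R, hR⟩ : ∃ R : ℕ, R = n + (C 0).natAbs + 1 := ⟨_, rfl⟩
  obtain ⟨j, hj⟩ := hy R
  have hc1 : ∀ r : ℕ, r ≤ R + 1 → c (j + r) - C r = c j - C 0 := by
    intro r hr
    induction r with
    | zero => simp
    | succ r ih =>
      have h1 := h.step (j + r)
      have h2 := hW.step r
      rw [hj r (by rw [Nat.abs_cast]; exact_mod_cast (by omega : r ≤ R))] at h2
      have h3 := ih (by omega)
      push_cast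
      rw [← add_assoc, h1, h2]
      linarith
  have hc2 : ∀ r : ℕ, r ≤ R → c (j + -r) - C (-r) = c j - C 0 := by
    intro r hr
    induction r with
    | zero => simp
    | succ r ih =>
      have h1 := h.step (j + -(r + 1 : ℕ))
      have h2 := hW.step (-(r + 1 : ℕ))
      rw [hj (-(r + 1 : ℕ)) (by rw [abs_neg, Nat.abs_cast]; exact_mod_cast hr)] at h2
      have h3 := ih (by omega)
      have e1 : j + -((r + 1 : ℕ) : ℤ) + 1 = j + -r := by push_cast; ring
      have e2 : -((r + 1 : ℕ) : ℤ) + 1 = -r := by push_cast; ring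
      rw [e1] at h1
      rw [e2] at h2
      linarith
  refine ⟨c j - C 0, fun t ht => ?_⟩
  obtain ⟨r, h1, h2⟩ := exists_block hmono t
  have hup := add_le_of_strictMono hmono 0 R
  have hlo := add_le_of_strictMono hmono (-(R : ℤ)) R
  rw [neg_add_cancel] at hlo
  rw [zero_add] at hup
  have habs1 := le_abs_self (C 0)
  have habs2 := neg_abs_le (C 0)
  rw [← Int.natCast_natAbs] at habs1 habs2
  have hR' : (R : ℤ) = n + (C 0).natAbs + 1 := by rw [hR]; push_cast; ring
  rw [abs_le] at ht
  have hrlt : r < R := by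
    by_contra hge
    push Not at hge
    have := hmono.monotone hge
    omega
  have hrgt : -(R : ℤ) ≤ r := by
    by_contra hlt
    push Not at hlt
    have := hmono.monotone (show r + 1 ≤ -(R : ℤ) by omega)
    omega
  have hcr : c (j + r) - C r = c j - C 0 := by
    rcases Int.eq_nat_or_neg r with ⟨q, rfl | rfl⟩
    · exact hc1 q (by omega)
    · exact hc2 q (by omega)
  have h3 := Des.get hW h1 h2
  rw [hj r (by rw [abs_le]; constructor <;> omega)] at h3
  have h4 := hW.step r
  rw [hj r (by rw [abs_le]; constructor <;> omega)] at h4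
  have h5 := h.val (j + r) (t - C r).toNat (by omega)
  rw [h3] at h5
  rw [Option.some.inj h5]
  congr 1
  have h6 : ((t - C r).toNat : ℤ) = t - C r := Int.toNat_of_nonneg (by omega)
  rw [h6]
  linarith

omit [Fintype B] in
theorem image_shift_unique {C : Type} {H : B → List C} (hH : ∀ b, H b ≠ []) {x : ℤ → B}
    {W W' : ℤ → C} {d d' : ℤ → ℤ} (s : ℤ) (h : Des H x W d) (h' : Des H (fun j => x (j + s)) W' d') :
    ∃ b, W' = fun t => W (t + b) := by
  have h1 := Des.shift h s (d s - d' 0)
  refine ⟨d s - d' 0, (Des.unique hH h' h1 ?_).2⟩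
  rw [zero_add]
  ring

/-- preimages of periodic words -/
theorem per_preimage (hREC : S_REC) (hDEL : S_DEL) (hE : Elem τ) (h2 : ∀ b, 2 ≤ (τ b).length) :
    ∃ P : ℕ, 0 < P ∧ ∀ (y W : ℤ → B) (C : ℤ → ℤ) (n : ℕ), Des τ y W C → 0 < n →
      (∀ t, W (t + n) = W t) → ∃ p : ℕ, 0 < p ∧ (p ≤ P ∨ 2 * p ≤ n) ∧ ∀ t, y (t + p) = y t := by
  obtain ⟨P, hP, hrec⟩ := hREC B B τ hE
  obtain ⟨hne, D, hD⟩ := hDEL B B τ hE
  refine ⟨P, hP, fun y W C n h hn hper => ?_⟩
  have hmono := Des.strictMono hne h
  have h' : Des τ y W (fun j => C j - n) := by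
    have h1 := Des.shift h 0 n
    have e1 : (fun t => W (t + n)) = W := funext hper
    simpa [e1] using h1
  by_cases hcut : ∃ i, ∀ j, C i ≠ C j - n
  · obtain ⟨-, -, p, hp, hpP, hyp⟩ := hrec y y W C _ h h' hcut
    exact ⟨p, hp, Or.inl hpP, hyp⟩
  · push Not at hcut
    obtain ⟨j, hj⟩ := hcut 0
    have hj0 : 0 < j := by
      by_contra hle
      push Not at hle
      have := hmono.monotone hle
      omega
    obtain ⟨q, rfl⟩ := Int.eq_ofNat_of_zero_le hj0.le
    have hy : ∀ r : ℤ, C (r + q) = C r + n → y (r + q) = y r := by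
      intro r hr
      by_contra hne'
      obtain ⟨t, -, ht⟩ := (hD y y W W C C h h).1 (r + q) r hne'
      apply ht
      rw [hr, add_right_comm, hper]
    have hy' : ∀ r : ℤ, C (r + q) = C r + n → y (r + q - 1) = y (r - 1) := by
      intro r hr
      by_contra hne'
      obtain ⟨t, -, ht⟩ := (hD y y W W C C h h).2 (r + q) r hne'
      apply ht
      rw [hr]
      have e : C r + n - 1 - t = C r - 1 - t + n := by ring
      rw [e, hper]
    have hc : ∀ r : ℕ, C (r + q) = C r + n := by
      intro r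
      induction r with
      | zero => push_cast; rw [zero_add]; omega
      | succ r ih =>
        have h3 := h.step (r + q)
        have h4 := h.step r
        rw [hy r ih] at h3
        have e1 : ((r + 1 : ℕ) : ℤ) + q = r + q + 1 := by push_cast; ring
        have e2 : ((r + 1 : ℕ) : ℤ) = (r : ℤ) + 1 := by push_cast; ring
        rw [e1, h3, e2, h4, ih]
        ring
    have hc' : ∀ r : ℕ, C (-r + q) = C (-r) + n := by
      intro r
      induction r with
      | zero => simp; omega
      | succ r ih =>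
        have h3 := h.step (-((r + 1 : ℕ) : ℤ) + q)
        have h4 := h.step (-((r + 1 : ℕ) : ℤ))
        have e1 : -((r + 1 : ℕ) : ℤ) + q + 1 = -r + q := by push_cast; ring
        have e2 : -((r + 1 : ℕ) : ℤ) + 1 = -(r : ℤ) := by push_cast; ring
        have e3 : -((r + 1 : ℕ) : ℤ) + q = -r + q - 1 := by push_cast; ring
        have e4 : -((r + 1 : ℕ) : ℤ) = -(r : ℤ) - 1 := by push_cast; ring
        rw [e1] at h3
        rw [e2] at h4
        have h5 := hy' (-r) ih
        rw [← e3, ← e4] at h5
        rw [h5] at h3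
        linarith
    have hall : ∀ r : ℤ, y (r + q) = y r := by
      intro r
      rcases Int.eq_nat_or_neg r with ⟨m, rfl | rfl⟩
      · exact hy _ (hc m)
      · exact hy _ (hc' m)
    refine ⟨q, by omega, Or.inr ?_, hall⟩
    have hgr : ∀ m : ℕ, C 0 + 2 * m ≤ C m := by
      intro m
      induction m with
      | zero => simp
      | succ m ih =>
        have h3 := h.step m
        have h4 := h2 (y m)
        push_cast
        omega
    have := hgr q
    omega

/-- images of words of small period have small period -/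
theorem image_per (hREC : S_REC) (hDEL : S_DEL) (hE : Elem τ) (h2 : ∀ b, 2 ≤ (τ b).length)
    (h : Des τ V V c) : ∃ P : ℕ, 0 < P ∧ ∀ W ∈ XV V, ∀ n : ℕ, 0 < n → (∀ t, W (t + n) = W t) →
      ∃ p : ℕ, 0 < p ∧ p ≤ P ∧ ∀ t, W (t + p) = W t := by
  classical
  obtain ⟨P, hP, hpre⟩ := per_preimage hREC hDEL hE h2
  obtain ⟨hne, -⟩ := hDEL B B τ hE
  obtain ⟨O, hO⟩ : ∃ O : Set (ℤ → B), O = {W | W ∈ XV V ∧ ∃ p : ℕ, 0 < p ∧ p ≤ P ∧
    ∀ t, W (t + p) = W t} := ⟨_, rfl⟩
  have hshift : ∀ W ∈ O, ∀ a : ℤ, (fun t => W (t + a)) ∈ O := by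
    intro W hW a
    rw [hO] at hW ⊢
    obtain ⟨h1, p, hp, hpP, h3⟩ := hW
    refine ⟨XV.shift h1 a, p, hp, hpP, fun t => ?_⟩
    simp only
    rw [add_right_comm, h3]
  have hfin : O.Finite := by
    have hmul : ∀ W ∈ O, ∀ t, W (t + (P.factorial : ℤ)) = W t := by
      intro W hW
      rw [hO] at hW
      obtain ⟨-, p, hp, hpP, h3⟩ := hW
      obtain ⟨m, hm⟩ := Nat.dvd_factorial hp hpP
      have h4 : ∀ (m : ℕ) (t : ℤ), W (t + (p : ℤ) * m) = W t := by
        intro m
        induction m with
        | zero => intro t; simp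
        | succ m ih =>
          intro t
          have e : t + (p : ℤ) * ((m + 1 : ℕ) : ℤ) = (t + p * m) + p := by push_cast; ring
          rw [e, h3, ih]
      intro t
      rw [hm]
      push_cast
      exact h4 m t
    have hinj : Set.InjOn (fun (W : ℤ → B) (i : Fin P.factorial) => W ((i : ℕ) : ℤ)) O := by
      intro W hW W' hW' heq
      funext t
      have hpos : (0 : ℤ) < P.factorial := by exact_mod_cast P.factorial_pos
      have hred : ∀ W ∈ O, ∀ t : ℤ, W t = W (t % (P.factorial : ℤ)) := by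
        intro W hW t
        have h5 : ∀ (q : ℕ) (t : ℤ), W (t + (P.factorial : ℤ) * q) = W t := by
          intro q
          induction q with
          | zero => intro t; simp
          | succ q ih =>
            intro t
            have e : t + (P.factorial : ℤ) * ((q + 1 : ℕ) : ℤ) =
              (t + (P.factorial : ℤ) * q) + P.factorial := by push_cast; ring
            rw [e, hmul W hW, ih]
        have h6 := Int.emod_add_mul_ediv t (P.factorial : ℤ)
        rcases Int.eq_nat_or_neg (t / (P.factorial : ℤ)) with ⟨q, hq | hq⟩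
        · rw [hq] at h6
          conv_lhs => rw [← h6]
          exact h5 q _
        · rw [hq] at h6
          have h7 := h5 q t
          have e : t + (P.factorial : ℤ) * q = t % (P.factorial : ℤ) := by linarith
          rw [e] at h7
          exact h7.symm
      rw [hred W hW, hred W' hW']
      have h8 := Int.emod_nonneg t hpos.ne'
      have h9 := Int.emod_lt_of_pos t hpos
      have h10 := congrFun heq ⟨(t % (P.factorial : ℤ)).toNat, by omega⟩
      simp only at h10
      rwa [Int.toNat_of_nonneg h8] at h10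
    exact Set.Finite.of_injOn (t := Set.univ) (fun _ _ => Set.mem_univ _) hinj Set.finite_univ
  -- classes modulo shifts
  let st : Setoid O :=
    { r := fun W W' => ∃ a : ℤ, W'.1 = fun t => W.1 (t + a)
      iseqv :=
        { refl := fun W => ⟨0, by simp⟩
          symm := by
            rintro W W' ⟨a, ha⟩
            refine ⟨-a, ?_⟩
            rw [ha]
            funext t
            simp
          trans := by
            rintro W W' W'' ⟨a, ha⟩ ⟨b, hb⟩
            refine ⟨b + a, ?_⟩
            rw [hb, ha]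
            funext t
            simp only
            rw [add_assoc] } }
  have hpreO : ∀ W ∈ O, ∃ y : O, ∃ C, Des τ y.1 W C := by
    intro W hW
    have hW' := hW
    rw [hO] at hW'
    obtain ⟨h1, p, hp, hpP, h3⟩ := hW'
    obtain ⟨y, hy, C, hC⟩ := exists_preimage hne h h1
    obtain ⟨q, hq, hqP, h4⟩ := hpre y W C p hC hp h3
    refine ⟨⟨y, ?_⟩, C, hC⟩
    rw [hO]
    exact ⟨hy, q, hq, by omega, h4⟩
  choose pr hpr using hpreO
  have hOfin : Finite O := hfin
  have hQfin : Finite (Quotient st) := inferInstance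
  let pred : Quotient st → Quotient st := fun o => Quotient.mk st (pr o.out.1 o.out.2)
  have hinj : Function.Injective pred := by
    intro o o' hoo
    obtain ⟨s, hs⟩ : ∃ a : ℤ, (pr o'.out.1 o'.out.2).1 = fun t => (pr o.out.1 o.out.2).1 (t + a) :=
      Quotient.exact hoo
    obtain ⟨C, hC⟩ := hpr o.out.1 o.out.2
    obtain ⟨C', hC'⟩ := hpr o'.out.1 o'.out.2
    rw [hs] at hC'
    obtain ⟨b, hb⟩ := image_shift_unique hne s hC hC'
    rw [← Quotient.out_eq o, ← Quotient.out_eq o']
    exact Quotient.sound ⟨b, hb⟩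
  have hsurj : Function.Surjective pred := Finite.surjective_of_injective hinj
  have himage : ∀ y ∈ O, ∀ (W : ℤ → B) (C : ℤ → ℤ), Des τ y W C → W ∈ O := by
    intro y hy W C hW
    obtain ⟨o, ho⟩ := hsurj (Quotient.mk st ⟨y, hy⟩)
    obtain ⟨s, hs⟩ : ∃ a : ℤ, y = fun t => (pr o.out.1 o.out.2).1 (t + a) := Quotient.exact ho
    obtain ⟨C', hC'⟩ := hpr o.out.1 o.out.2
    rw [hs] at hW
    obtain ⟨b, hb⟩ := image_shift_unique hne s hC' hW
    rw [hb]
    exact hshift _ o.out.2 b
  refine ⟨P, hP, fun W hW n hn hper => ?_⟩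
  induction n using Nat.strong_induction_on generalizing W with
  | _ n ih =>
    obtain ⟨y, hy, C, hC⟩ := exists_preimage hne h hW
    obtain ⟨q, hq, hqP, h4⟩ := hpre y W C n hC hn hper
    have hyO : y ∈ O := by
      rw [hO]
      refine ⟨hy, ?_⟩
      rcases hqP with h5 | h5
      · exact ⟨q, hq, h5, h4⟩
      · exact ih q (by omega) y hy hq h4
    have := himage y hyO W C hC
    rw [hO] at this
    exact this.2

end

theorem t_PER (hREC : S_REC) (hDEL : S_DEL) : S_PER := by
  intro B _ τ hE h2 V c h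
  classical
  obtain ⟨P, hP, hper⟩ := image_per hREC hDEL hE h2 h
  refine ⟨P.factorial, P.factorial_pos, fun p hp => ?_⟩
  -- compactness
  have hcomp : ∃ r : ℕ, ∀ i : ℤ, (∀ t, i - r ≤ t → t + p ≤ i + r → V (t + p) = V t) →
      V (i + P.factorial) = V i := by
    by_contra hno
    push Not at hno
    choose i hi1 hi2 using hno
    have hW : ∀ s : ℤ, ∃ b, ∀ᶠ n in (hyperfilter ℕ : Filter ℕ), V (i n + s) = b := fun s => ulim_fin _
    choose W hW using hW
    have hWX : W ∈ XV V := by
      intro m
      have h1 : ∀ᶠ n in (hyperfilter ℕ : Filter ℕ), ∀ r ∈ Finset.Icc (-(m : ℤ)) m, V (i n + r) = W r :=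
        (Filter.eventually_all_finset _).2 fun r _ => hW r
      obtain ⟨n, hn⟩ := h1.exists
      exact ⟨i n, fun t ht => (hn t (by rw [Finset.mem_Icc]; exact abs_le.1 ht)).symm⟩
    have hWp : ∀ t, W (t + p) = W t := by
      intro t
      obtain ⟨n, h1, h3, h4⟩ := ((hW (t + p)).and ((hW t).and (u_ge (t.natAbs + p)))).exists
      have h5 := hi1 n (i n + t) (by omega) (by omega)
      rw [← h1, ← h3, ← add_assoc, h5]
    obtain ⟨q, hq, hqP, h3⟩ := hper W hWX p hp hWp
    obtain ⟨m, hm⟩ := Nat.dvd_factorial hq hqP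
    have h4 : ∀ (m : ℕ) (t : ℤ), W (t + (q : ℤ) * m) = W t := by
      intro m
      induction m with
      | zero => intro t; simp
      | succ m ih =>
        intro t
        have e : t + (q : ℤ) * ((m + 1 : ℕ) : ℤ) = (t + q * m) + q := by push_cast; ring
        rw [e, h3, ih]
    obtain ⟨n, h5, h6⟩ := ((hW (P.factorial : ℤ)).and (hW 0)).exists
    apply hi2 n
    rw [h5]
    rw [add_zero] at h6
    rw [h6, hm]
    push_cast
    have h7 := h4 m 0
    rw [zero_add] at h7
    exact h7
  obtain ⟨r, hr⟩ := hcomp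
  refine ⟨2 * (r + P.factorial) + 2 * p + 2, fun a n hn hV t ht1 ht2 => ?_⟩
  -- periodicity by multiples
  have hmul : ∀ (m : ℕ) (s : ℤ), a ≤ s → s + (p : ℤ) * m < a + n → V (s + (p : ℤ) * m) = V s := by
    intro m
    induction m with
    | zero => intro s _ _; simp
    | succ m ih =>
      intro s h3 h4
      have e : s + (p : ℤ) * ((m + 1 : ℕ) : ℤ) = (s + p * m) + p := by push_cast; ring
      have h5 : (0 : ℤ) ≤ (p : ℤ) * m := by positivity
      have h6 : (0 : ℤ) < (p : ℤ) := by exact_mod_cast hp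
      rw [e] at h4 ⊢
      rw [hV _ (by linarith) h4, ih s h3 (by linarith)]
  -- a translate of `t` in the middle
  have hmid : ∀ i : ℤ, a + r ≤ i → i + r + P.factorial < a + n → V (i + P.factorial) = V i := by
    intro i h3 h4
    refine hr i fun s h5 h6 => hV s (by omega) (by omega)
  have hpos : (0 : ℤ) < p := by exact_mod_cast hp
  have hfac : (0 : ℤ) < P.factorial := by exact_mod_cast P.factorial_pos
  rcases lt_or_ge t (a + r) with hlt | hge
  · -- move to the right
    obtain ⟨m, hm1, hm2⟩ : ∃ m : ℕ, a + r ≤ t + (p : ℤ) * m ∧ t + (p : ℤ) * m < a + r + p := by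
      refine ⟨((a + r - t + p - 1) / p).toNat, ?_⟩
      have h3 := Int.emod_add_mul_ediv (a + r - t + p - 1) p
      have h4 := Int.emod_nonneg (a + r - t + p - 1) hpos.ne'
      have h5 := Int.emod_lt_of_pos (a + r - t + p - 1) hpos
      have h6 : 0 ≤ (a + r - t + p - 1) / p := Int.ediv_nonneg (by omega) hpos.le
      rw [Int.toNat_of_nonneg h6]
      constructor <;> linarith
    have h7 := hmul m t ht1 (by omega)
    have h8 := hmul m (t + P.factorial) (by omega) (by
      have : t + (P.factorial : ℤ) + p * m = (t + p * m) + P.factorial := by ring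
      rw [this]
      omega)
    have h9 := hmid (t + p * m) hm1 (by omega)
    rw [← h7, ← h8, ← h9]
    congr 1
    ring
  rcases lt_or_ge (t + r + P.factorial) (a + n) with hlt' | hge'
  · exact hmid t hge hlt'
  · -- move to the left
    obtain ⟨m, hm1, hm2⟩ : ∃ m : ℕ, t - (p : ℤ) * m + r + P.factorial < a + n ∧
        a + n ≤ t - (p : ℤ) * m + r + P.factorial + p := by
      refine ⟨((t + r + P.factorial - (a + n)) / p + 1).toNat, ?_⟩
      have h3 := Int.emod_add_mul_ediv (t + r + P.factorial - (a + n)) p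
      have h4 := Int.emod_nonneg (t + r + P.factorial - (a + n)) hpos.ne'
      have h5 := Int.emod_lt_of_pos (t + r + P.factorial - (a + n)) hpos
      have h6 : 0 ≤ (t + r + P.factorial - (a + n)) / p := Int.ediv_nonneg (by omega) hpos.le
      rw [Int.toNat_of_nonneg (by omega), mul_add, mul_one]
      constructor <;> linarith
    have hnn : (0 : ℤ) ≤ (p : ℤ) * m := by positivity
    have h7 := hmul m (t - p * m) (by omega) (by rw [sub_add_cancel]; omega)
    have h8 := hmul m (t - p * m + P.factorial) (by omega) (by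
      have : t - (p : ℤ) * m + (P.factorial : ℤ) + p * m = t + P.factorial := by ring
      rw [this]
      omega)
    have h9 := hmid (t - p * m) (by omega) hm1
    rw [sub_add_cancel] at h7
    have e : t - (p : ℤ) * m + (P.factorial : ℤ) + p * m = t + P.factorial := by ring
    rw [e] at h8
    rw [h7, h8, h9]

end Pool.Agent.T2h38.FC
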