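import Pool.Agent.T2h38.FC.Des

/-!
Reduction to elementary morphisms, two-sided words.
-/

set_option autoImplicit false

open Filter Pool.Agent.T2h96.FC

namespace Pool.Agent.T2h38.FC

/-! ### the two-sided word -/

section

variable {k : ℕ} (σ : Fin k → List (Fin k))

/-- the morphism on the extended alphabet -/
def sx : Option (Fin k) → List (Option (Fin k))
  | none => [none, none]
  | some b => (σ b).map some

theorem it_sx_some (n : ℕ) (b : Fin k) : it (sx σ) n (some b) = (it σ n b).map some := by
  induction n with
  | zero => rfl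
  | succ n ih =>
    rw [it_succ, ih, it_succ, List.flatMap_map, List.map_flatMap]
    rfl

theorem it_sx_none (n : ℕ) : (it (sx σ) n none).length = 2 ^ n := by
  induction n with
  | zero => rfl
  | succ n ih =>
    rw [it_succ']
    change (([none, none] : List (Option (Fin k))).flatMap (it (sx σ) n)).length = _
    simp only [List.flatMap_cons, List.flatMap_nil, List.append_nil, List.length_append, ih]
    ring

/-- the two-sided word -/
def ux (u : ℕ → Fin k) (i : ℤ) : Option (Fin k) := if i < 0 then none else some (u i.toNat)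

variable {σ} {a : Fin k} {u : ℕ → Fin k}

theorem seg_ux (u : ℕ → Fin k) (n : ℕ) : seg (ux u) 0 n = ((List.range n).map u).map some := by
  unfold seg
  rw [List.map_map]
  refine List.map_congr_left fun r _ => ?_
  simp [ux]

theorem flatMap_take_prefix {B C : Type} (f : B → List C) (L : List B) (n : ℕ) :
    (L.take n).flatMap f <+: L.flatMap f := by
  refine ⟨(L.drop n).flatMap f, ?_⟩
  rw [← List.flatMap_append, List.take_append_drop]

theorem des_ux (hne : ∀ b, σ b ≠ []) (hgrow : Tendsto (fun m : ℕ => (it σ m a).length) atTop atTop)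
    (hu : ∀ m i : ℕ, i < (it σ m a).length → (it σ m a)[i]? = some (u i)) :
    ∃ e : ℤ → ℤ, Des (sx σ) (ux u) (ux u) e ∧ e 0 = 0 := by
  have hnes : ∀ b, sx σ b ≠ [] := by
    rintro (_ | b)
    · simp [sx]
    · simpa [sx] using hne b
  obtain ⟨W, e, hW, he0⟩ := exists_image (sx σ) hnes (ux u)
  have hmono := Des.strictMono hnes hW
  have hWu : W = ux u := by
    funext t
    rcases lt_or_ge t 0 with ht | ht
    · obtain ⟨j, h1, h2⟩ := exists_block hmono t
      have hj : j < 0 := by
        by_contra h
        push Not at h
        have := hmono.monotone h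
        omega
      have h3 := Des.get hW h1 h2
      have h4 : ux u j = none := by simp [ux, hj]
      rw [h4] at h3
      have h5 : ux u t = none := by simp [ux, ht]
      rw [h5]
      have h6 := List.mem_of_getElem? h3
      simpa [sx] using h6
    · obtain ⟨n, rfl⟩ := Int.eq_ofNat_of_zero_le ht
      obtain ⟨m, hm⟩ := (hgrow.eventually_ge_atTop (n + 1)).exists
      have h1 : (it σ m a).take (n + 1) = (List.range (n + 1)).map u := by
        apply List.ext_getElem?
        intro i
        rw [List.getElem?_take]
        split_ifs with hi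
        · rw [hu m i (by omega)]
          simp [hi]
        · rw [List.getElem?_eq_none]
          simp
          omega
      obtain ⟨h2, h3⟩ := Des.seg_flatMap hW 0 (n + 1)
      rw [seg_ux, ← h1, he0] at h2 h3
      have h4 : ((it σ m a).take (n + 1)).flatMap σ <+: it σ (m + 1) a := by
        rw [it_succ]
        exact flatMap_take_prefix _ _ _
      have h5 : (((it σ m a).take (n + 1)).map some).flatMap (sx σ) =
          (((it σ m a).take (n + 1)).flatMap σ).map some := by
        rw [List.flatMap_map, List.map_flatMap]
        rfl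
      rw [h5] at h2 h3
      have h6 : (n : ℤ) + 1 ≤ (((it σ m a).take (n + 1)).flatMap σ).length := by
        have h7 := add_le_of_strictMono hmono 0 (n + 1)
        rw [he0, h2] at h7
        simpa using h7
      have h7 : ((((it σ m a).take (n + 1)).flatMap σ).map some)[n]? = some (W n) := by
        rw [h3, seg_getElem? _ _ _ _ (by rw [List.length_map]; omega), zero_add]
      have h8 : (((it σ m a).take (n + 1)).flatMap σ)[n]? = some (u n) := by
        have h10 := h4.length_le
        have h11 := hu (m + 1) n (by omega)
        rw [List.getElem?_eq_getElem (by omega)] at h11 ⊢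
        rw [h4.getElem (by omega)]
        exact h11
      rw [List.getElem?_map, h8] at h7
      have h9 : ux u (n : ℤ) = some (u n) := by simp [ux]
      rw [h9]
      simpa using h7.symm
  rw [hWu] at hW
  exact ⟨e, hW, he0⟩

end

/-! ### the minimal factorisation -/

section

variable {A : Type} [Fintype A] (s : A → List A)

/-- factorisations of the iterates of `s` -/
def Fac (m : ℕ) : Prop :=
  ∃ (N : ℕ) (g : A → List (Fin m)) (f : Fin m → List A), 0 < N ∧
    ∀ b, it s N b = (g b).flatMap f

theorem exists_fac : ∃ m, Fac s m := by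
  classical
  have e := Fintype.equivFin A
  refine ⟨Fintype.card A, 1, fun b => [e b], fun i => s (e.symm i), one_pos, fun b => ?_⟩
  rw [it_one, List.flatMap_singleton, Equiv.symm_apply_apply]

variable {s} {m N : ℕ} {g : A → List (Fin m)} {f : Fin m → List A}

/-- powers of the conjugate -/
theorem it_conj (hgf : ∀ b, it s N b = (g b).flatMap f) (j : ℕ) (b : A) :
    it s (N * (j + 1)) b =
      ((g b).flatMap (it (fun i => (f i).flatMap g) j)).flatMap f := by
  induction j generalizing b with
  | zero =>
    have h0 : it (fun i => (f i).flatMap g) 0 = fun i => [i] := rfl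
    rw [zero_add, mul_one, hgf, h0]
    simp
  | succ j ih =>
    have h1 : N * (j + 1 + 1) = N * (j + 1) + N := by ring
    rw [h1, it_add, hgf, List.flatMap_assoc, List.flatMap_assoc]
    congr 1
    funext i
    rw [it_succ', List.flatMap_assoc, List.flatMap_assoc]
    congr 1
    funext x
    rw [ih, List.flatMap_assoc]

theorem it_conj' (hgf : ∀ b, it s N b = (g b).flatMap f) (j : ℕ) (i : Fin m) :
    it (fun i => (f i).flatMap g) (j + 1) i = ((f i).flatMap (it s (N * j))).flatMap g := by
  induction j generalizing i with
  | zero =>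
    rw [it_one, mul_zero]
    have h0 : it s 0 = fun i => [i] := rfl
    rw [h0]
    simp
  | succ j ih =>
    have h1 : N * (j + 1) = N * j + N := by ring
    rw [it_succ', h1, List.flatMap_assoc, List.flatMap_assoc]
    congr 1
    funext x
    rw [it_add, hgf, List.flatMap_assoc, List.flatMap_assoc]
    congr 1
    funext y
    rw [ih, List.flatMap_assoc]

end

theorem t_RED : S_RED := by
  intro k σ a u hgrow ha hlen hu
  classical
  have hgrow' : ∀ b, Tendsto (fun m : ℕ => (it σ m b).length) atTop atTop := hgrow
  have hne : ∀ b, σ b ≠ [] := by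
    intro b hb
    obtain ⟨m, hm⟩ := ((hgrow' b).eventually_ge_atTop 1).and (eventually_ge_atTop 1) |>.exists
    obtain ⟨n, rfl⟩ : ∃ n, m = n + 1 := ⟨m - 1, by omega⟩
    rw [it_succ', hb] at hm
    simp at hm
  obtain ⟨e, he, he0⟩ := des_ux hne (hgrow' a) hu
  -- growth
  have hsgrow : ∀ b, Tendsto (fun m : ℕ => (it (sx σ) m b).length) atTop atTop := by
    rintro (_ | b)
    · simp only [it_sx_none]
      exact tendsto_pow_atTop_atTop_of_one_lt (by norm_num)
    · simp only [it_sx_some, List.length_map]
      exact hgrow' b
  -- the minimal factorisation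
  have hfac := exists_fac (sx σ)
  obtain ⟨N, g, f, hN, hgf⟩ := Nat.find_spec hfac
  have hmin : ∀ m, Fac (sx σ) m → Nat.find hfac ≤ m := fun m hm => Nat.find_min' hfac hm
  obtain ⟨l, hl⟩ : ∃ l, l = Nat.find hfac := ⟨_, rfl⟩
  rw [← hl] at hmin
  revert g f
  rw [← hl]
  intro g f hgf
  obtain ⟨τ₀, hτ₀⟩ : ∃ τ₀ : Fin l → List (Fin l), τ₀ = fun i => (f i).flatMap g := ⟨_, rfl⟩
  have hfE : Elem f := by
    intro m g' f' h
    rw [Fintype.card_fin]
    refine hmin m ⟨N, fun b => (g b).flatMap g', f', hN, fun b => ?_⟩
    rw [hgf, List.flatMap_assoc]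
    congr 1
    funext i
    exact h i
  have hτE : ∀ p, Elem (it τ₀ p) := by
    intro p m g' f' h
    rw [Fintype.card_fin]
    refine hmin m ⟨N * (p + 1), fun b => (g b).flatMap g', fun i => (f' i).flatMap f, by positivity,
      fun b => ?_⟩
    rw [it_conj hgf, ← hτ₀, List.flatMap_assoc, List.flatMap_assoc]
    congr 1
    funext i
    rw [h, List.flatMap_assoc]
  have hfne := Elem.nonerasing hfE
  have hgne : ∀ b, g b ≠ [] := by
    intro b hb
    have h1 := hgf b
    rw [hb, List.flatMap_nil] at h1
    obtain ⟨m, hm, hm1⟩ := ((hsgrow b).eventually_ge_atTop 1).and (eventually_ge_atTop N) |>.exists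
    obtain ⟨n, rfl⟩ : ∃ n, m = n + N := ⟨m - N, by omega⟩
    rw [it_add, h1] at hm
    simp at hm
  have hge : ∀ (w : List (Option (Fin k))), w.length ≤ (w.flatMap g).length := by
    intro w
    induction w with
    | nil => simp
    | cons x w ih =>
      rw [List.flatMap_cons, List.length_append, List.length_cons]
      have := List.length_pos_iff.2 (hgne x)
      omega
  -- the power
  obtain ⟨p, hp⟩ : ∃ p : ℕ, ∀ b, 2 ≤ (it τ₀ (p + 1) b).length := by
    have h1 : ∀ b : Fin l, ∀ᶠ p in atTop, 2 ≤ (it τ₀ (p + 1) b).length := by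
      intro b
      obtain ⟨x, w, hxw⟩ := List.exists_cons_of_ne_nil (hfne b)
      filter_upwards [(hsgrow x).comp (tendsto_id.const_mul_atTop' hN) |>.eventually_ge_atTop 2]
        with p hp
      rw [hτ₀, it_conj' hgf]
      refine le_trans ?_ (hge _)
      rw [hxw, List.flatMap_cons, List.length_append]
      exact le_trans hp (Nat.le_add_right _ _)
    exact (eventually_all.2 h1).exists
  -- the words
  obtain ⟨V, cg, hV, hcg⟩ := exists_image g hgne (ux u)
  obtain ⟨W, d, hW, hd⟩ := exists_image f hfne V
  obtain ⟨e', he', he'0⟩ := des_it (sx σ) he N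
  have hWu : W = ux u := by
    have h1 := Des.comp hV hW
    have h2 : (fun b => (g b).flatMap f) = it (sx σ) N := by
      funext b
      exact (hgf b).symm
    rw [h2] at h1
    refine (Des.unique (fun b => ?_) h1 he' ?_).2
    · rw [hgf]
      intro h3
      rw [List.flatMap_eq_nil_iff] at h3
      obtain ⟨x, w, hxw⟩ := List.exists_cons_of_ne_nil (hgne b)
      exact hfne x (h3 x (by rw [hxw]; simp))
    · beta_reduce
      rw [hcg, hd, he'0 he0]
  rw [hWu] at hW
  have hτV : Des τ₀ V V (fun j => cg (d j)) := by
    rw [hτ₀]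
    exact Des.comp hW hV
  obtain ⟨c, hc, -⟩ := des_it τ₀ hτV (p + 1)
  refine ⟨l, it τ₀ (p + 1), f, V, ux u, c, d, hτE _, hfE, hp, hc, hW, fun i hi => by simp [ux, hi],
    fun i => by simp [ux]⟩

end Pool.Agent.T2h38.FC
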