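import Pool.Agent.T2h96.FC.Stm

/-!
Images of bi-infinite words under morphisms: general lemmas.
-/

set_option autoImplicit false

open Pool.Agent.T2h96.FC

namespace Pool.Agent.T2h38.FC

/-- the word at the positions `a, …, a + n - 1` -/
def seg {C : Type} (W : ℤ → C) (a : ℤ) (n : ℕ) : List C := (List.range n).map fun r : ℕ => W (a + (r : ℤ))

section

variable {C : Type} (W : ℤ → C)

@[simp] theorem seg_length (a : ℤ) (n : ℕ) : (seg W a n).length = n := by simp [seg]

@[simp] theorem seg_zero (a : ℤ) : seg W a 0 = [] := rfl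

theorem seg_getElem? (a : ℤ) (n r : ℕ) (h : r < n) : (seg W a n)[r]? = some (W (a + r)) := by
  simp [seg, h]

theorem seg_add (a : ℤ) (m n : ℕ) : seg W a (m + n) = seg W a m ++ seg W (a + m) n := by
  unfold seg
  rw [List.range_add, List.map_append, List.map_map]
  congr 1
  refine List.map_congr_left fun r _ => ?_
  simp only [Function.comp_apply]
  push_cast
  rw [add_assoc]

theorem seg_succ (a : ℤ) (n : ℕ) : seg W a (n + 1) = seg W a n ++ [W (a + n)] := by
  rw [seg_add]
  simp [seg]

theorem seg_one (a : ℤ) : seg W a 1 = [W a] := by simp [seg]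

theorem eq_seg {a : ℤ} {L : List C} (h : ∀ r : ℕ, r < L.length → L[r]? = some (W (a + r))) :
    L = seg W a L.length := by
  apply List.ext_getElem?
  intro r
  by_cases hr : r < L.length
  · rw [h r hr, seg_getElem? W a _ r hr]
  · rw [List.getElem?_eq_none (by omega), List.getElem?_eq_none (by rw [seg_length]; omega)]

end

section

variable {B C : Type} {H : B → List C} {x : ℤ → B} {W : ℤ → C} {c : ℤ → ℤ}

theorem Des.seg_eq (h : Des H x W c) (j : ℤ) : H (x j) = seg W (c j) (H (x j)).length :=
  eq_seg W (h.val j)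

theorem des_of_seg (h1 : ∀ j, c (j + 1) = c j + (H (x j)).length)
    (h2 : ∀ j, H (x j) = seg W (c j) (H (x j)).length) : Des H x W c :=
  ⟨h1, fun j r hr => by
    have h3 := seg_getElem? W (c j) (H (x j)).length r hr
    rw [← h2 j] at h3
    exact h3⟩

/-- a longer segment -/
theorem Des.seg_flatMap (h : Des H x W c) (a : ℤ) (n : ℕ) :
    c (a + n) = c a + ((seg x a n).flatMap H).length ∧
      (seg x a n).flatMap H = seg W (c a) ((seg x a n).flatMap H).length := by
  induction n with
  | zero => simp
  | succ n ih =>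
    obtain ⟨ih1, ih2⟩ := ih
    have h1 : c (a + (n + 1 : ℕ)) = c (a + n) + (H (x (a + n))).length := by
      have h2 := h.step (a + n)
      push_cast
      rw [← add_assoc]
      exact h2
    rw [seg_succ, List.flatMap_append, List.flatMap_singleton, List.length_append]
    refine ⟨?_, ?_⟩
    · rw [h1, ih1]
      push_cast
      ring
    · rw [seg_add, ← ih1, ← ih2, ← Des.seg_eq h]

theorem Des.comp {D : Type} {G : C → List D} {Y : ℤ → D} {d : ℤ → ℤ} (h : Des H x W c)
    (h' : Des G W Y d) : Des (fun b => (H b).flatMap G) x Y (fun j => d (c j)) := by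
  apply des_of_seg
  · intro j
    rw [h.step, (Des.seg_flatMap h' (c j) _).1, ← Des.seg_eq h]
  · intro j
    have h1 := (Des.seg_flatMap h' (c j) (H (x j)).length).2
    rw [← Des.seg_eq h] at h1
    exact h1

/-! ### nonerasing morphisms -/

theorem Des.lt_succ (hH : ∀ b, H b ≠ []) (h : Des H x W c) (j : ℤ) : c j < c (j + 1) := by
  rw [h.step]
  have := List.length_pos_iff.2 (hH (x j))
  omega

theorem strictMono_of_lt_succ {c : ℤ → ℤ} (h : ∀ j, c j < c (j + 1)) : StrictMono c :=
  strictMono_int_of_lt_succ h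

theorem Des.strictMono (hH : ∀ b, H b ≠ []) (h : Des H x W c) : StrictMono c :=
  strictMono_of_lt_succ (Des.lt_succ hH h)

/-- growth of the cuts -/
theorem add_le_of_strictMono {c : ℤ → ℤ} (h : StrictMono c) (j : ℤ) (n : ℕ) : c j + n ≤ c (j + n) := by
  induction n with
  | zero => simp
  | succ n ih =>
    have h1 : c (j + n) < c (j + n + 1) := h (by omega)
    push_cast
    rw [← add_assoc j]
    omega

theorem exists_block {c : ℤ → ℤ} (h : StrictMono c) (t : ℤ) : ∃ j, c j ≤ t ∧ t < c (j + 1) := by
  classical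
  -- lower and upper bounds
  have hlow : ∃ j, c j ≤ t := by
    refine ⟨0 - ((c 0 - t).toNat : ℤ), ?_⟩
    have h1 := add_le_of_strictMono h (0 - ((c 0 - t).toNat : ℤ)) (c 0 - t).toNat
    rw [sub_add_cancel] at h1
    omega
  have hupp : ∃ b : ℤ, ∀ j, c j ≤ t → j ≤ b := by
    refine ⟨(t - c 0).toNat, fun j hj => ?_⟩
    by_contra hlt
    push Not at hlt
    have h1 := add_le_of_strictMono h 0 (t - c 0).toNat
    rw [zero_add] at h1
    have h2 := h hlt
    omega
  obtain ⟨b, hb⟩ := hupp
  obtain ⟨j, hj, hj'⟩ := Int.exists_greatest_of_bdd ⟨b, hb⟩ hlow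
  refine ⟨j, hj, ?_⟩
  by_contra h1
  push Not at h1
  have := hj' (j + 1) h1
  omega

theorem block_unique {c : ℤ → ℤ} (h : StrictMono c) {t i j : ℤ} (hi : c i ≤ t ∧ t < c (i + 1))
    (hj : c j ≤ t ∧ t < c (j + 1)) : i = j := by
  rcases lt_trichotomy i j with h1 | h1 | h1
  · have := h.monotone (show i + 1 ≤ j by omega)
    omega
  · exact h1
  · have := h.monotone (show j + 1 ≤ i by omega)
    omega

/-- the value at a position in a block -/
theorem Des.get (h : Des H x W c) {j t : ℤ} (h1 : c j ≤ t) (h2 : t < c (j + 1)) :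
    (H (x j))[(t - c j).toNat]? = some (W t) := by
  have h3 := h.step j
  have h4 := h.val j (t - c j).toNat (by omega)
  rw [h4]
  congr 2
  omega

/-- uniqueness of cuts -/
theorem cut_unique {W' : ℤ → C} {c' : ℤ → ℤ} (h : Des H x W c) (h' : Des H x W' c')
    (h0 : c 0 = c' 0) : c = c' := by
  have h1 : ∀ n : ℕ, c n = c' n := by
    intro n
    induction n with
    | zero => exact h0
    | succ n ih =>
      have e1 := h.step n
      have e2 := h'.step n
      push_cast
      rw [e1, e2, ih]
  have h2 : ∀ n : ℕ, c (-(n : ℤ)) = c' (-(n : ℤ)) := by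
    intro n
    induction n with
    | zero => exact h0
    | succ n ih =>
      have e1 := h.step (-((n : ℤ) + 1))
      have e2 := h'.step (-((n : ℤ) + 1))
      have e3 : (-((n : ℤ) + 1)) + 1 = -(n : ℤ) := by ring
      rw [e3] at e1 e2
      push_cast
      omega
  funext j
  rcases Int.eq_nat_or_neg j with ⟨n, rfl | rfl⟩
  · exact h1 n
  · exact h2 n

theorem Des.unique {W' : ℤ → C} {c' : ℤ → ℤ} (hH : ∀ b, H b ≠ []) (h : Des H x W c)
    (h' : Des H x W' c') (h0 : c 0 = c' 0) : c = c' ∧ W = W' := by
  have h1 := cut_unique h h' h0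
  subst h1
  refine ⟨rfl, ?_⟩
  funext t
  obtain ⟨j, h1, h2⟩ := exists_block (Des.strictMono hH h) t
  have h3 := Des.get h h1 h2
  rw [Des.get h' h1 h2] at h3
  exact (Option.some.inj h3).symm

/-- existence of the image -/
theorem exists_image (H : B → List C) (hH : ∀ b, H b ≠ []) (x : ℤ → B) :
    ∃ (W : ℤ → C) (c : ℤ → ℤ), Des H x W c ∧ c 0 = 0 := by
  classical
  obtain ⟨c, hc⟩ : ∃ c : ℤ → ℤ, c = fun j => ∑ i ∈ Finset.Ico 0 j, ((H (x i)).length : ℤ) -
    ∑ i ∈ Finset.Ico j 0, ((H (x i)).length : ℤ) := ⟨_, rfl⟩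
  have hstep : ∀ j, c (j + 1) = c j + (H (x j)).length := by
    intro j
    rw [hc]
    simp only
    rcases le_or_gt 0 j with h0 | h0
    · have e1 : Finset.Ico (0 : ℤ) (j + 1) = insert j (Finset.Ico 0 j) := by
        ext i
        simp only [Finset.mem_insert, Finset.mem_Ico]
        omega
      have e2 : Finset.Ico j (0 : ℤ) = ∅ := Finset.Ico_eq_empty (by omega)
      have e3 : Finset.Ico (j + 1) (0 : ℤ) = ∅ := Finset.Ico_eq_empty (by omega)
      rw [e1, e2, e3, Finset.sum_insert (by simp)]
      simp
      ring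
    · have e1 : Finset.Ico j (0 : ℤ) = insert j (Finset.Ico (j + 1) 0) := by
        ext i
        simp only [Finset.mem_insert, Finset.mem_Ico]
        omega
      have e2 : Finset.Ico (0 : ℤ) j = ∅ := Finset.Ico_eq_empty (by omega)
      have e3 : Finset.Ico (0 : ℤ) (j + 1) = ∅ := Finset.Ico_eq_empty (by omega)
      rw [e1, e2, e3, Finset.sum_insert (by simp)]
      simp
  have hmono : StrictMono c := strictMono_of_lt_succ fun j => by
    rw [hstep]
    have := List.length_pos_iff.2 (hH (x j))
    omega
  choose J hJ1 hJ2 using exists_block hmono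
  have hlt : ∀ t, (t - c (J t)).toNat < (H (x (J t))).length := by
    intro t
    have h1 := hJ1 t
    have h2 := hJ2 t
    rw [hstep] at h2
    omega
  refine ⟨fun t => (H (x (J t)))[(t - c (J t)).toNat]'(hlt t), c, ⟨hstep, fun j r hr => ?_⟩, ?_⟩
  · have h1 : J (c j + r) = j := by
      refine block_unique hmono ⟨hJ1 _, hJ2 _⟩ ⟨by omega, ?_⟩
      rw [hstep]
      omega
    have h2 : ∀ i (hi : i = j) (n : ℕ) (hn : n = r) (h3 : n < (H (x i)).length),
        (H (x j))[r]? = some ((H (x i))[n]'h3) := by
      rintro i rfl n rfl h3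
      exact List.getElem?_eq_getElem h3
    exact h2 _ h1 _ (by rw [h1]; omega) _
  · rw [hc]
    simp

/-- shift -/
theorem Des.shift (h : Des H x W c) (a b : ℤ) :
    Des H (fun j => x (j + a)) (fun t => W (t + b)) (fun j => c (j + a) - b) := by
  refine ⟨fun j => ?_, fun j r hr => ?_⟩
  · have h1 := h.step (j + a)
    have e : j + 1 + a = j + a + 1 := by ring
    rw [e, h1]
    ring
  · have h1 := h.val (j + a) r hr
    have e : c (j + a) - b + r + b = c (j + a) + r := by ring
    rw [e]
    exact h1

end

/-! ### iterates -/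

section

variable {B : Type} (τ : B → List B)

/-- the iterates of a morphism, on letters -/
def it (n : ℕ) (b : B) : List B := (fun w : List B => w.flatMap τ)^[n] [b]

theorem it_zero (b : B) : it τ 0 b = [b] := rfl

theorem it_succ (n : ℕ) (b : B) : it τ (n + 1) b = (it τ n b).flatMap τ := by
  unfold it
  rw [Function.iterate_succ_apply']

theorem iter_eq (n : ℕ) (w : List B) : (fun w : List B => w.flatMap τ)^[n] w = w.flatMap (it τ n) := by
  induction n with
  | zero =>
    simp only [Function.iterate_zero, id_eq]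
    have : it τ 0 = fun b => [b] := rfl
    rw [this]
    simp
  | succ n ih =>
    rw [Function.iterate_succ_apply', ih, List.flatMap_assoc]
    congr 1
    funext b
    rw [it_succ]

theorem it_add (m n : ℕ) (b : B) : it τ (m + n) b = (it τ n b).flatMap (it τ m) := by
  unfold it
  rw [Function.iterate_add_apply, iter_eq]
  rfl

theorem it_one (b : B) : it τ 1 b = τ b := by
  rw [it_succ, it_zero, List.flatMap_singleton]

theorem it_succ' (n : ℕ) (b : B) : it τ (n + 1) b = (τ b).flatMap (it τ n) := by
  rw [it_add, it_one]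

theorem des_it {x : ℤ → B} {c : ℤ → ℤ} (h : Des τ x x c) (n : ℕ) : ∃ d, Des (it τ n) x x d ∧
    (c 0 = 0 → d 0 = 0) := by
  induction n with
  | zero =>
    refine ⟨fun j => j, ⟨fun j => by simp [it_zero], fun j r hr => ?_⟩, fun _ => rfl⟩
    rw [it_zero] at hr ⊢
    have : r = 0 := by simpa using hr
    subst this
    simp
  | succ n ih =>
    obtain ⟨d, hd, h0⟩ := ih
    have h1 := Des.comp hd h
    refine ⟨fun j => c (d j), ?_, fun hc => ?_⟩
    · have h2 : it τ (n + 1) = fun b => (it τ n b).flatMap τ := by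
        funext b
        rw [it_succ]
      rw [h2]
      exact h1
    · beta_reduce
      rw [h0 hc, hc]

end

/-! ### elementary morphisms -/

theorem Elem.le {B C : Type} [Fintype B] {H : B → List C} (h : Elem H) {D : Type} [Fintype D]
    (g : B → List D) (f : D → List C) (hgf : ∀ b, H b = (g b).flatMap f) :
    Fintype.card B ≤ Fintype.card D := by
  classical
  have e := Fintype.equivFin D
  refine h (Fintype.card D) (fun b => (g b).map e) (fun i => f (e.symm i)) fun b => ?_
  rw [hgf, List.flatMap_map]
  simp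

theorem Elem.nonerasing {B C : Type} [Fintype B] {H : B → List C} (h : Elem H) (b : B) : H b ≠ [] := by
  classical
  intro h0
  have h1 := Elem.le h (D := {b' // b' ≠ b}) (fun b' => if hb : b' = b then [] else [⟨b', hb⟩])
    (fun d => H d.1) (fun b' => by
      by_cases hb : b' = b
      · subst hb
        simp [h0]
      · simp [hb])
  have h2 : Fintype.card {b' // b' ≠ b} < Fintype.card B := by
    apply Fintype.card_subtype_lt (x := b)
    simp
  omega

end Pool.Agent.T2h38.FC
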